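import Pool.Agent.H39.QD.Stat

/-!
Module BALL (P186, assembly). Basic facts on balls. `PT f α []` = full triangulation, `dst` = graph distance between the
starting vertices (HG/Defs; facts on `gr`, `dst` in HG/Model, HG/TwoFar, HG/XchDst ...).

Proofs.
`dst_f`: `dst x (f d) = dst x (α d)` because `f d = (f α)(α d)` starts at the same vertex as `α d`; `dst x (f α d) = dst x d`.
`dst_adj`: the starting vertices of `d` and `α d` are adjacent or equal, so the distances differ by at most one (the
graph is connected).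
`ball_f`: the condition is invariant under `d → f d` (`f f f = 1`).
`ball_cf`: let `S` be as in `Cf`, `d0 ∈ ball`, `S d0`. `S` is invariant under `f` in both directions on the ball. If `y` is a vertex
at distance `< r` all its darts are in the ball; for such a dart `d`: `f⁻¹ d = f f d` is in the ball and `α (f⁻¹ d)` starts at `y`
too, so `S d → S (f⁻¹ d) → S ((f α)⁻¹ d)`: `S` is constant on the darts of `y`. If `y, y'` are adjacent, both at distance `< r`, there is
a dart `d` of `y` with `α d` a dart of `y'`, so `S` has the same value on both. The vertices at distance `< r` are connected to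
the vertex of `x` through a geodesic (all its vertices are at distance `< r`). Every face of the ball has a dart at such
a vertex.
-/

set_option autoImplicit false

namespace QE39

open Equiv HG39 QD39 UI39

variable {D : Type} [Fintype D] [DecidableEq D]

omit [Fintype D] [DecidableEq D] in
private theorem qeb_leg {f α : Perm D} (h : PT f α []) (d : D) : α d ≠ d := by
  intro h1
  have h2 := (h.leg d).1 h1
  simp [tri] at h2

omit [Fintype D] [DecidableEq D] in
private theorem qeb_f {f α : Perm D} (h : PT f α []) (d : D) :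
    Quotient.mk (Equiv.Perm.SameCycle.setoid (f * α)) (f d) =
      Quotient.mk (Equiv.Perm.SameCycle.setoid (f * α)) (α d) := by
  apply Quotient.sound
  change (f * α).SameCycle (f d) (α d)
  have h1 : f d = (f * α) (α d) := by
    rw [Equiv.Perm.mul_apply, h.inv]
  rw [h1]
  exact (Equiv.Perm.sameCycle_apply_left).2 (Equiv.Perm.SameCycle.refl _ _)

omit [Fintype D] [DecidableEq D] in
private theorem qeb_adj (f α : Perm D) (d : D) :
    Quotient.mk (Equiv.Perm.SameCycle.setoid (f * α)) d =
      Quotient.mk (Equiv.Perm.SameCycle.setoid (f * α)) (α d) ∨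
    (gr (f * α) α).Adj (Quotient.mk (Equiv.Perm.SameCycle.setoid (f * α)) d)
      (Quotient.mk (Equiv.Perm.SameCycle.setoid (f * α)) (α d)) := by
  by_cases h : Quotient.mk (Equiv.Perm.SameCycle.setoid (f * α)) d =
      Quotient.mk (Equiv.Perm.SameCycle.setoid (f * α)) (α d)
  · exact Or.inl h
  · exact Or.inr ⟨h, d, Or.inl ⟨rfl, rfl⟩⟩

omit [Fintype D] [DecidableEq D] in
private theorem qeb_conn {f α : Perm D} (h : PT f α []) [Nonempty D] :
    (gr (f * α) α).Connected := by
  have d0 : D := Classical.arbitrary D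
  have hreach : ∀ d, (gr (f * α) α).Reachable
      (Quotient.mk (Equiv.Perm.SameCycle.setoid (f * α)) d0)
      (Quotient.mk (Equiv.Perm.SameCycle.setoid (f * α)) d) := by
    have ha : ∀ d, (gr (f * α) α).Reachable
        (Quotient.mk (Equiv.Perm.SameCycle.setoid (f * α)) d0)
        (Quotient.mk (Equiv.Perm.SameCycle.setoid (f * α)) d) → (gr (f * α) α).Reachable
        (Quotient.mk (Equiv.Perm.SameCycle.setoid (f * α)) d0)
        (Quotient.mk (Equiv.Perm.SameCycle.setoid (f * α)) (α d)) := by
      intro d hd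
      rcases qeb_adj f α d with h1 | h1
      · rw [← h1]
        exact hd
      · exact hd.trans h1.reachable
    intro d
    refine h.con (fun d => (gr (f * α) α).Reachable
      (Quotient.mk (Equiv.Perm.SameCycle.setoid (f * α)) d0)
      (Quotient.mk (Equiv.Perm.SameCycle.setoid (f * α)) d)) ?_ ?_ ?_ d (qeb_leg h d)
    · exact ⟨d0, qeb_leg h d0, SimpleGraph.Reachable.refl _⟩
    · intro d hd
      rw [qeb_f h d]
      exact ha d hd
    · exact ha
  haveI : Nonempty (Quotient (Equiv.Perm.SameCycle.setoid (f * α))) := ⟨Quotient.mk _ d0⟩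
  refine SimpleGraph.Connected.mk fun u v => ?_
  induction u using Quotient.inductionOn with
  | _ u =>
    induction v using Quotient.inductionOn with
    | _ v => exact (hreach u).symm.trans (hreach v)

private theorem qeb_walk {V : Type} {G : SimpleGraph V} {u v : V} (p : G.Walk u v)
    (hp : 0 < p.length) : ∃ w, G.Adj u w ∧ G.dist w v + 1 ≤ p.length := by
  cases p with
  | nil =>
    rw [SimpleGraph.Walk.length_nil] at hp
    omega
  | cons hadj p' =>
    refine ⟨_, hadj, ?_⟩
    rw [SimpleGraph.Walk.length_cons]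
    have h2 := SimpleGraph.dist_le p'
    omega

theorem dst_same {f α : Perm D} (x d e : D) (h : (f * α).SameCycle d e) :
    dst f α x d = dst f α x e :=
  dst_congr f α x d e h

theorem dst_f {f α : Perm D} (h : PT f α []) (x d : D) : dst f α x (f d) = dst f α x (α d) ∧
    dst f α x (f (α d)) = dst f α x d := by
  have h1 : ∀ d, dst f α x (f d) = dst f α x (α d) := by
    intro d
    rw [dst, dst, qeb_f h d]
  refine ⟨h1 d, ?_⟩
  rw [h1 (α d), h.inv]

theorem dst_adj {f α : Perm D} (h : PT f α []) (x d : D) :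
    dst f α x (f d) ≤ dst f α x d + 1 ∧ dst f α x d ≤ dst f α x (f d) + 1 := by
  have hc : ∀ d : D, dst f α x (α d) ≤ dst f α x d + 1 := by
    intro d
    haveI : Nonempty D := ⟨x⟩
    have h1 : dst f α x (α d) ≤ dst f α x d + dst f α d (α d) := (qeb_conn h).dist_triangle
    refine h1.trans (Nat.add_le_add_left ?_ _)
    rw [dst]
    rcases qeb_adj f α d with h2 | h2
    · rw [← h2, SimpleGraph.dist_self]
      exact Nat.zero_le _
    · rw [SimpleGraph.dist_eq_one_iff_adj.2 h2]
  rw [(dst_f h x d).1]
  refine ⟨hc d, ?_⟩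
  have h2 := hc (α d)
  rwa [h.inv] at h2

theorem dst_desc {f α : Perm D} (h : PT f α []) (x d : D) (hd : 0 < dst f α x d) :
    ∃ e, (f * α).SameCycle d e ∧ dst f α x (f e) + 1 = dst f α x d := by
  haveI : Nonempty D := ⟨x⟩
  have hconn := qeb_conn h
  obtain ⟨p, hp⟩ := hconn.exists_walk_length_eq_dist
    (Quotient.mk (Equiv.Perm.SameCycle.setoid (f * α)) d)
    (Quotient.mk (Equiv.Perm.SameCycle.setoid (f * α)) x)
  rw [SimpleGraph.dist_comm] at hp
  change p.length = dst f α x d at hp
  obtain ⟨v, hadj, h2⟩ := qeb_walk p (by omega)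
  obtain ⟨_, y, ⟨hx1, hx2⟩ | ⟨hx1, hx2⟩⟩ := hadj
  · have h3 : (f * α).SameCycle y d := Quotient.exact hx1
    have h4 : dst f α x (f y) + 1 ≤ p.length := by
      rw [(dst_f h x y).1, dst_comm, dst, hx2]
      exact h2
    have h5 := (dst_adj h x y).2
    have h6 := dst_congr f α x y d h3
    exact ⟨y, h3.symm, by omega⟩
  · have h3 : (f * α).SameCycle (α y) d := Quotient.exact hx2
    have h4 : dst f α x (f (α y)) + 1 ≤ p.length := by
      rw [(dst_f h x y).2, dst_comm, dst, hx1]
      exact h2
    have h5 := (dst_adj h x (α y)).2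
    have h6 := dst_congr f α x (α y) d h3
    exact ⟨α y, h3.symm, by omega⟩

private theorem qeb_mem (f α : Perm D) (x : D) (r : ℕ) (d : D) : d ∈ ball f α x r ↔
    (dst f α x d < r ∨ dst f α x (f d) < r ∨ dst f α x (f (f d)) < r) := by
  simp [ball]

theorem ball_f {f : Perm D} (hf : TF f) (α : Perm D) (x : D) (r : ℕ) :
    ∀ d ∈ ball f α x r, f d ∈ ball f α x r := by
  intro d hd
  rw [qeb_mem] at hd ⊢
  rw [hf.three]
  tauto

theorem ball_ss (f α : Perm D) (x : D) {r s : ℕ} (h : r ≤ s) : ball f α x r ⊆ ball f α x s := by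
  intro d hd
  rw [qeb_mem] at hd ⊢
  omega

theorem ball_x (f α : Perm D) (x : D) {r : ℕ} (h : 1 ≤ r) : x ∈ ball f α x r := by
  rw [qeb_mem]
  left
  rw [dst_self f α x x (Equiv.Perm.SameCycle.refl _ _)]
  omega

theorem ball_cf {f α : Perm D} (hf : TF f) (h : PT f α []) (x : D) (r : ℕ) :
    Cf f α (ball f α x r) := by
  intro S hS1 hS2 hS3
  have hmem : ∀ d, dst f α x d < r → d ∈ ball f α x r := by
    intro d hd
    rw [qeb_mem]
    exact Or.inl hd
  -- one step backwards around the vertex
  have hstep : ∀ d, dst f α x d < r → S d →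
      S ((f * α)⁻¹ d) ∧ dst f α x ((f * α)⁻¹ d) < r := by
    intro d hd hSd
    have he : (f * α)⁻¹ d = α (f (f d)) := by
      rw [Equiv.Perm.inv_eq_iff_eq, Equiv.Perm.mul_apply, h.inv, hf.three]
    have h1 : dst f α x (α (f (f d))) = dst f α x d := by
      rw [← (dst_f h x (f (f d))).1, hf.three]
    rw [he, h1]
    have h2 := hS1 _ (hmem d hd) hSd
    have h3 := ball_f hf α x r _ (hmem d hd)
    have h4 := hS1 _ h3 h2
    have h5 := ball_f hf α x r _ h3
    exact ⟨hS2 _ h5 (hmem _ (by omega)) h4, hd⟩
  have hpow : ∀ (n : ℕ) (d : D), dst f α x d < r → S d →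
      S ((((f * α)⁻¹) ^ n) d) ∧ dst f α x ((((f * α)⁻¹) ^ n) d) < r := by
    intro n
    induction n with
    | zero => intro d hd hSd; exact ⟨hSd, hd⟩
    | succ n ih =>
      intro d hd hSd
      obtain ⟨h1, h2⟩ := ih d hd hSd
      rw [pow_succ', Equiv.Perm.mul_apply]
      exact hstep _ h2 h1
  have hver : ∀ d e, dst f α x d < r → (f * α).SameCycle d e → S d → S e := by
    intro d e hd hde hSd
    have h1 : ((f * α)⁻¹).SameCycle d e := Equiv.Perm.sameCycle_inv.2 hde
    obtain ⟨n, -, hn⟩ := h1.exists_pow_eq'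
    have h2 := (hpow n d hd hSd).1
    rwa [hn] at h2
  have hedge : ∀ d, dst f α x d < r → dst f α x (α d) < r → S d → S (α d) := by
    intro d h1 h2 h3
    exact hS2 d (hmem d h1) (hmem _ h2) h3
  have hall : ∀ (n : ℕ) (d : D), dst f α x d = n → dst f α x d < r → (S d ↔ S x) := by
    intro n
    induction n with
    | zero =>
      intro d hd hr
      haveI : Nonempty D := ⟨x⟩
      have e3 := (qeb_conn h).dist_eq_zero_iff.1 hd
      have e4 : (f * α).SameCycle x d := Quotient.exact e3
      have e5 : dst f α x x < r := by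
        rw [dst_same x x d e4]
        exact hr
      exact ⟨hver d x hr e4.symm, hver x d e5 e4⟩
    | succ n ih =>
      intro d hd hr
      obtain ⟨e, he1, he2⟩ := dst_desc h x d (by omega)
      have h1 := dst_same x d e he1
      have h2 := (dst_f h x e).1
      have h3 := ih (α e) (by omega) (by omega)
      have h4 : S d ↔ S e := ⟨hver d e hr he1, hver e d (by omega) he1.symm⟩
      have h5 : S e ↔ S (α e) := by
        refine ⟨hedge e (by omega) (by omega), fun h6 => ?_⟩
        have h7 := hedge (α e) (by omega) (by rw [h.inv]; omega) h6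
        rwa [h.inv] at h7
      rw [h4, h5, h3]
  obtain ⟨d0, hd0, hSd0⟩ := hS3
  have hSx : S x := by
    have h1 := hS1 _ hd0 hSd0
    have h2 := ball_f hf α x r _ hd0
    have h3 := hS1 _ h2 h1
    rw [qeb_mem] at hd0
    rcases hd0 with h4 | h4 | h4
    · exact (hall _ d0 rfl h4).1 hSd0
    · exact (hall _ _ rfl h4).1 h1
    · exact (hall _ _ rfl h4).1 h3
  intro e he
  have he1 := ball_f hf α x r _ he
  have he2 := ball_f hf α x r _ he1
  have he' := he
  rw [qeb_mem] at he'
  rcases he' with h4 | h4 | h4
  · exact (hall _ e rfl h4).2 hSx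
  · have h5 := (hall _ _ rfl h4).2 hSx
    have h6 := hS1 _ he1 h5
    have h7 := hS1 _ he2 h6
    rwa [hf.three] at h7
  · have h5 := (hall _ _ rfl h4).2 hSx
    have h6 := hS1 _ he2 h5
    rwa [hf.three] at h6

end QE39
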