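import Pool.Agent.H39.UI.Defs
import Pool.Agent.H39.HG.ZSwap

/-!
Module EXC (P186, assembly). The excess of a partial gluing `β` (an involution, fixed points = unglued sides):
`exc f β = 12 c - 6 cyc (f β) + 3 #{d | β d ≠ d} - 2 #D` where `c` = number of components (this is `12` times the total genus).

Proofs. `exc_one`: `β = 1`: `c = cyc f = #D / 3` (the classes of `b = f a ∨ b = a` are the cycles of `f`, all of length 3).
`exc_step`: let `β' = β * swap a b`. `#{β' ≠} = #{β ≠} + 2`. (i) `a, b` in the same cycle of `f * β`: then
`cyc (f * β') = cyc (f * β) + 1` and `a, b` are in the same component of `(f, β)`, so `c' = c`: change `-6 + 6 = 0`. (ii) different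
cycles: `cyc (f * β') = cyc (f * β) - 1`, `c' ≥ c - 1` (the new relation only joins the classes of `a` and `b`): change
`≥ -12 + 6 + 6 = 0`. (Multiplication by a transposition: HG/GrPerm; `c' ≥ c - 1`: the map
`Quot r → Quot r'` is surjective, and it is injective on the complement of the class of `b`.)
`exc_mono`: induction on the number of `d` with `β' d ≠ d`, `β d = d`: take such a `d`, `a = d`, `b = β' d` (then `β b = b`,
otherwise `β' b = β b`, i.e. `d = β b`, `β d = b ≠ d`), and replace `β` by `β * swap a b`.
-/

set_option autoImplicit false

namespace QE39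

open Equiv HG39 QD39 UI39

variable {D : Type} [Fintype D] [DecidableEq D]

/-- number of components of the surface glued by `β` from all the faces -/
noncomputable def cmp (f β : Perm D) : ℕ := Nat.card (Quot fun a b : D => b = f a ∨ b = β a)

/-- twelve times the total genus -/
noncomputable def exc (f β : Perm D) : ℤ :=
  12 * (cmp f β : ℤ) - 6 * (cyc (f * β) : ℤ) + 3 * ((Finset.univ.filter fun d => β d ≠ d).card : ℤ) -
    2 * (Fintype.card D : ℤ)

private lemma sc_iff {f : Perm D} (hf : TF f) (x y : D) :
    f.SameCycle x y ↔ (y = x ∨ y = f x ∨ y = f (f x)) := by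
  constructor
  · intro h
    refine zs_ind f (fun x y => y = x ∨ y = f x ∨ y = f (f x)) (fun x => Or.inl rfl) ?_
      (fun x => Or.inr (Or.inl rfl)) h
    intro x y z h1 h2
    rcases h1 with rfl | rfl | rfl <;> rcases h2 with rfl | rfl | rfl
    · exact Or.inl rfl
    · exact Or.inr (Or.inl rfl)
    · exact Or.inr (Or.inr rfl)
    · exact Or.inr (Or.inl rfl)
    · exact Or.inr (Or.inr rfl)
    · exact Or.inl (hf.three x)
    · exact Or.inr (Or.inr rfl)
    · exact Or.inl (hf.three x)
    · refine Or.inr (Or.inl ?_)
      rw [hf.three]
  · rintro (rfl | rfl | rfl)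
    · exact Perm.SameCycle.refl f _
    · exact ⟨1, by rw [zpow_one]⟩
    · exact ⟨2, rfl⟩

private lemma cmp_one (f : Perm D) : cmp f 1 = cyc f := by
  unfold cmp cyc
  refine Nat.card_congr
    { toFun := Quot.lift (fun x => Quotient.mk (Perm.SameCycle.setoid f) x) ?_
      invFun := Quotient.lift (s := Perm.SameCycle.setoid f)
        (fun x => Quot.mk (fun a b : D => b = f a ∨ b = (1 : Perm D) a) x) ?_
      left_inv := ?_
      right_inv := ?_ }
  · rintro a b (h | h)
    · refine Quotient.sound ⟨1, ?_⟩
      rw [zpow_one, h]
    · refine Quotient.sound ⟨0, ?_⟩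
      rw [zpow_zero, h]
  · intro a b h
    exact zs_ind f (fun x y => Quot.mk (fun a b : D => b = f a ∨ b = (1 : Perm D) a) x =
      Quot.mk (fun a b : D => b = f a ∨ b = (1 : Perm D) a) y) (fun x => rfl)
      (fun x y z h1 h2 => h1.trans h2) (fun x => Quot.sound (Or.inl rfl)) h
  · intro c
    induction c using Quot.ind
    rfl
  · intro c
    induction c using Quotient.ind
    rfl

private lemma three_cyc {f : Perm D} (hf : TF f) : Fintype.card D = 3 * cyc f := by
  classical
  have hfin : Fintype (Quotient (Perm.SameCycle.setoid f)) := Fintype.ofFinite _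
  have h1 := Finset.card_eq_sum_card_fiberwise (s := (Finset.univ : Finset D))
    (t := (Finset.univ : Finset (Quotient (Perm.SameCycle.setoid f))))
    (f := fun x => Quotient.mk (Perm.SameCycle.setoid f) x) (fun x _ => Finset.mem_univ _)
  rw [← Finset.card_univ, h1]
  have h2 : ∀ c ∈ (Finset.univ : Finset (Quotient (Perm.SameCycle.setoid f))),
      (Finset.univ.filter fun x => Quotient.mk (Perm.SameCycle.setoid f) x = c).card = 3 := by
    intro c _
    obtain ⟨x, rfl⟩ := Quotient.exists_rep c
    have h3 : (Finset.univ.filter fun y => Quotient.mk (Perm.SameCycle.setoid f) y =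
        Quotient.mk (Perm.SameCycle.setoid f) x) = {x, f x, f (f x)} := by
      ext y
      simp only [Finset.mem_filter, Finset.mem_univ, true_and, Finset.mem_insert,
        Finset.mem_singleton]
      rw [← sc_iff hf x y]
      constructor
      · intro h
        have h4 : f.SameCycle y x := Quotient.exact h
        exact h4.symm
      · intro h
        exact Quotient.sound h.symm
    rw [h3]
    have e1 : x ≠ f x := (hf.nf x).symm
    have e2 : x ≠ f (f x) := by
      intro h
      have h5 := hf.three x
      rw [← h] at h5
      exact hf.nf x h5
    have e3 : f x ≠ f (f x) := fun h => e1 (f.injective h)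
    rw [Finset.card_insert_of_notMem (by simp [e1, e2]),
      Finset.card_insert_of_notMem (by simp [e3]), Finset.card_singleton]
  rw [Finset.sum_congr rfl h2, Finset.sum_const, smul_eq_mul, mul_comm, Finset.card_univ]
  unfold cyc
  rw [Nat.card_eq_fintype_card]

theorem exc_one {f : Perm D} (hf : TF f) : exc f 1 = 0 := by
  unfold exc
  rw [cmp_one, mul_one]
  have h1 : (Finset.univ.filter fun d => (1 : Perm D) d ≠ d) = ∅ := by
    rw [Finset.filter_eq_empty_iff]
    intro d _ h
    exact h rfl
  rw [h1, Finset.card_empty]
  have h2 := three_cyc hf
  rw [h2]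
  push_cast
  ring

theorem exc_step {f β : Perm D} (hβ : ∀ d, β (β d) = d) {a b : D} (hab : a ≠ b) (ha : β a = a)
    (hb : β b = b) : exc f β ≤ exc f (β * swap a b) := by
  classical
  have ea : (β * swap a b) a = b := by rw [Perm.mul_apply, swap_apply_left, hb]
  have eb : (β * swap a b) b = a := by rw [Perm.mul_apply, swap_apply_right, ha]
  have eo : ∀ x, x ≠ a → x ≠ b → (β * swap a b) x = β x := fun x h1 h2 => by
    rw [Perm.mul_apply, swap_apply_of_ne_of_ne h1 h2]
  -- the moved points
  have hm : (Finset.univ.filter fun d => (β * swap a b) d ≠ d).card =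
      (Finset.univ.filter fun d => β d ≠ d).card + 2 := by
    have h1 : (Finset.univ.filter fun d => (β * swap a b) d ≠ d) =
        insert a (insert b (Finset.univ.filter fun d => β d ≠ d)) := by
      ext x
      simp only [Finset.mem_filter, Finset.mem_univ, true_and, Finset.mem_insert]
      by_cases hxa : x = a
      · subst hxa
        simp only [true_or, iff_true]
        rw [ea]
        exact hab.symm
      · by_cases hxb : x = b
        · subst hxb
          simp only [true_or, or_true, iff_true]
          rw [eb]
          exact hab
        · rw [eo x hxa hxb]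
          simp [hxa, hxb]
    rw [h1, Finset.card_insert_of_notMem, Finset.card_insert_of_notMem]
    · simp [hb]
    · simp [ha, hab]
  have hassoc : f * (β * swap a b) = (f * β) * swap a b := (mul_assoc _ _ _).symm
  unfold exc
  rw [hm, hassoc]
  push_cast
  by_cases hs : (f * β).SameCycle a b
  · -- the same number of components
    have h1 := cyc_swap_same (f * β) a b hab hs
    have h2 : cmp f β ≤ cmp f (β * swap a b) := by
      unfold cmp
      have hab' : Quot.mk (fun a b : D => b = f a ∨ b = β a) a =
          Quot.mk (fun a b : D => b = f a ∨ b = β a) b := by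
        refine zs_ind (f * β) (fun x y => Quot.mk (fun a b : D => b = f a ∨ b = β a) x =
          Quot.mk (fun a b : D => b = f a ∨ b = β a) y) (fun x => rfl)
          (fun x y z h1 h2 => h1.trans h2) (fun x => ?_) hs
        have e1 : Quot.mk (fun a b : D => b = f a ∨ b = β a) x =
            Quot.mk (fun a b : D => b = f a ∨ b = β a) (β x) := Quot.sound (Or.inr rfl)
        have e2 : Quot.mk (fun a b : D => b = f a ∨ b = β a) (β x) =
            Quot.mk (fun a b : D => b = f a ∨ b = β a) (f (β x)) := Quot.sound (Or.inl rfl)
        exact e1.trans e2
      refine Nat.card_le_card_of_surjective (Quot.lift (fun x => Quot.mk _ x) ?_) ?_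
      · rintro x y (h | h)
        · exact Quot.sound (Or.inl h)
        · by_cases hxa : x = a
          · rw [hxa, ea] at h
            rw [hxa, h]
            exact hab'
          · by_cases hxb : x = b
            · rw [hxb, eb] at h
              rw [hxb, h]
              exact hab'.symm
            · rw [eo x hxa hxb] at h
              exact Quot.sound (Or.inr h)
      · intro c
        induction c using Quot.ind with
        | mk x => exact ⟨Quot.mk _ x, rfl⟩
    rw [h1]
    push_cast
    have h3 : (cmp f β : ℤ) ≤ (cmp f (β * swap a b) : ℤ) := by exact_mod_cast h2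
    linarith
  · have h1 := cyc_swap_diff (f * β) a b hs
    have h2 : cmp f β ≤ cmp f (β * swap a b) + 1 := by
      unfold cmp
      rw [← Finite.card_option]
      let q : D → Quot (fun a b : D => b = f a ∨ b = β a) := fun x => Quot.mk _ x
      let g : D → Quot (fun a b : D => b = f a ∨ b = β a) := fun x => if q x = q b then q a else q x
      have hg : ∀ x y, q x = q y → g x = g y := by
        intro x y h
        show (if q x = q b then q a else q x) = (if q y = q b then q a else q y)
        rw [h]
      have hga : g a = q a := by
        show (if q a = q b then q a else q a) = q a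
        split_ifs <;> rfl
      have hgb : g b = q a := if_pos rfl
      refine Nat.card_le_card_of_surjective (fun c => Option.elim c (q b) (Quot.lift g ?_)) ?_
      · rintro x y (h | h)
        · exact hg x y (Quot.sound (Or.inl h))
        · by_cases hxa : x = a
          · rw [hxa, ea] at h
            rw [hxa, h, hga, hgb]
          · by_cases hxb : x = b
            · rw [hxb, eb] at h
              rw [hxb, h, hga, hgb]
            · rw [eo x hxa hxb] at h
              exact hg x y (Quot.sound (Or.inr h))
      · intro c
        induction c using Quot.ind with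
        | mk x =>
          by_cases hx : q x = q b
          · exact ⟨none, hx.symm⟩
          · exact ⟨some (Quot.mk _ x), if_neg hx⟩
    have h3 : (cmp f β : ℤ) ≤ (cmp f (β * swap a b) : ℤ) + 1 := by exact_mod_cast h2
    have h4 : (cyc (f * β * swap a b) : ℤ) + 1 = (cyc (f * β) : ℤ) := by exact_mod_cast h1
    linarith

theorem exc_mono {f β β' : Perm D} (h1 : ∀ d, β (β d) = d) (h2 : ∀ d, β' (β' d) = d)
    (h : ∀ d, β d ≠ d → β' d = β d) : exc f β ≤ exc f β' := by
  classical
  obtain ⟨n, hn⟩ : ∃ n, (Finset.univ.filter fun d => β' d ≠ d ∧ β d = d).card = n := ⟨_, rfl⟩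
  induction n using Nat.strong_induction_on generalizing β with
  | _ n ih =>
    by_cases hem : ∃ d, β' d ≠ d ∧ β d = d
    · obtain ⟨a, ha', ha⟩ := hem
      have hb : β (β' a) = β' a := by
        by_contra hcon
        have e1 := h _ hcon
        rw [h2] at e1
        have e2 := h1 (β' a)
        rw [← e1, ha] at e2
        exact ha' e2.symm
      have hab : a ≠ β' a := ha'.symm
      have ea : (β * swap a (β' a)) a = β' a := by rw [Perm.mul_apply, swap_apply_left, hb]
      have eb : (β * swap a (β' a)) (β' a) = a := by rw [Perm.mul_apply, swap_apply_right, ha]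
      have eo : ∀ x, x ≠ a → x ≠ β' a → (β * swap a (β' a)) x = β x := fun x h1 h2 => by
        rw [Perm.mul_apply, swap_apply_of_ne_of_ne h1 h2]
      refine (exc_step h1 hab ha hb).trans (ih _ ?_ ?_ ?_ rfl)
      · rw [← hn]
        refine Finset.card_lt_card ⟨?_, ?_⟩
        · intro x hx
          rw [Finset.mem_filter] at hx ⊢
          refine ⟨hx.1, hx.2.1, ?_⟩
          by_cases hxa : x = a
          · rw [hxa]; exact ha
          · by_cases hxb : x = β' a
            · rw [hxb]; exact hb
            · rw [← eo x hxa hxb]; exact hx.2.2
        · intro hsub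
          have e1 := hsub (Finset.mem_filter.2 ⟨Finset.mem_univ a, ha', ha⟩)
          rw [Finset.mem_filter] at e1
          have e2 := e1.2.2
          rw [ea] at e2
          exact ha' e2
      · intro d
        by_cases hda : d = a
        · rw [hda, ea, eb]
        · by_cases hdb : d = β' a
          · rw [hdb, eb, ea]
          · have e1 : β d ≠ a := by
              intro e
              have e2 := h1 d
              rw [e, ha] at e2
              exact hda e2.symm
            have e2 : β d ≠ β' a := by
              intro e
              have e3 := h1 d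
              rw [e, hb] at e3
              exact hdb e3.symm
            rw [eo d hda hdb, eo _ e1 e2, h1]
      · intro d hd
        by_cases hda : d = a
        · rw [hda, ea]
        · by_cases hdb : d = β' a
          · rw [hdb, eb, h2]
          · rw [eo d hda hdb] at hd ⊢
            exact h d hd
    · push Not at hem
      have e : β = β' := by
        ext d
        by_cases hd : β d = d
        · by_contra hcon
          have e1 : β' d ≠ d := fun e => hcon (by rw [hd, e])
          exact hem d e1 hd
        · rw [h d hd]
      rw [e]

end QE39
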