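import Pool.Agent.H39.QE.Exc

/-!
Module EXCF (P186, assembly). Monotonicity of planarity.

Proof. `exc_in`: let `β = inn α F`. Components: `F` is one component (`Cf`, nonempty; `β` preserves `F` and is the identity
outside), the others are the `(#D - #F)/3` cycles of `f` outside. `cyc (f * β) = vb f α F + (#D - #F)/3`: on `F` the map `f * β` is
`stp f α F` (and `Quot` of `b = stp a` on the finite set `F` is the set of cycles of this permutation of `F`), outside it is `f`.
`#{β ≠} = #{d ∈ F | α d ∈ F}` (no fixed points of `α`). So `exc f β = 12 + 4 (#D - #F) - 6 vb - 2 (#D - #F) + 3 N - 2 #D =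
12 - 2 #F - 6 vb + 3 N`.
`plan_mono`: `0 = exc f 1 ≤ exc f (inn α F) ≤ exc f (inn α F') = 0` by `exc_mono` (`inn α F d ≠ d` implies `d, α d ∈ F ⊆ F'`, so both
values are `α d`).
-/

set_option autoImplicit false

namespace QE39

open Equiv HG39 QD39 UI39

variable {D : Type} [Fintype D] [DecidableEq D]

private theorem quot_split (r : D → D → Prop) (F : Finset D) (h : ∀ a b, r a b → (a ∈ F ↔ b ∈ F)) :
    Nat.card (Quot r) = Nat.card (Quot fun a b : {d // d ∈ F} => r a b) +
      Nat.card (Quot fun a b : {d // d ∉ F} => r a b) := by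
  classical
  have e : Quot r ≃ (Quot fun a b : {d // d ∈ F} => r a b) ⊕ (Quot fun a b : {d // d ∉ F} => r a b) := by
    refine ⟨Quot.lift (fun d => if h : d ∈ F then Sum.inl (Quot.mk _ ⟨d, h⟩) else Sum.inr (Quot.mk _ ⟨d, h⟩)) ?_,
      Sum.elim (Quot.lift (fun d => Quot.mk r d.1) ?_) (Quot.lift (fun d => Quot.mk r d.1) ?_), ?_, ?_⟩
    · intro a b hab
      have h1 := h a b hab
      by_cases ha : a ∈ F
      · have hb : b ∈ F := h1.1 ha
        simp only [ha, hb, dif_pos]
        congr 1
        exact Quot.sound hab
      · have hb : b ∉ F := fun hb => ha (h1.2 hb)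
        simp only [ha, hb, dif_neg, not_false_eq_true]
        congr 1
        exact Quot.sound hab
    · intro a b hab
      exact Quot.sound hab
    · intro a b hab
      exact Quot.sound hab
    · intro q
      induction q using Quot.ind with
      | mk d =>
        by_cases hd : d ∈ F
        · simp [hd]
        · simp [hd]
    · intro q
      rcases q with q | q
      · induction q using Quot.ind with
        | mk d =>
          obtain ⟨d, hd⟩ := d
          simp [hd]
      · induction q using Quot.ind with
        | mk d =>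
          obtain ⟨d, hd⟩ := d
          simp [hd]
  rw [Nat.card_congr e, Nat.card_sum]

private theorem quot_same {V : Type} (r s : V → V → Prop) (h1 : ∀ a b, r a b → Quot.mk s a = Quot.mk s b)
    (h2 : ∀ a b, s a b → Quot.mk r a = Quot.mk r b) : Nat.card (Quot r) = Nat.card (Quot s) := by
  refine Nat.card_congr ⟨Quot.lift (Quot.mk s) h1, Quot.lift (Quot.mk r) h2, ?_, ?_⟩
  · intro q
    induction q using Quot.ind with
    | mk d => rfl
  · intro q
    induction q using Quot.ind with
    | mk d => rfl

private theorem cyc_quot (π : Perm D) : cyc π = Nat.card (Quot fun a b : D => b = π a) := by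
  have hp : ∀ (n : ℕ) (a : D), Quot.mk (fun a b : D => b = π a) ((π ^ n) a) = Quot.mk _ a := by
    intro n
    induction n with
    | zero => intro a; rfl
    | succ n ih =>
      intro a
      rw [pow_succ', Perm.mul_apply, ← ih a]
      exact (Quot.sound (r := fun a b : D => b = π a) rfl).symm
  unfold cyc
  refine Nat.card_congr ⟨Quotient.lift (fun a => Quot.mk _ a) ?_,
    Quot.lift (fun a => Quotient.mk _ a) ?_, ?_, ?_⟩
  · rintro a b ⟨n, hn⟩
    obtain ⟨m, hm | hm⟩ := n.eq_nat_or_neg
    · rw [hm, zpow_natCast] at hn
      have := hp m a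
      rw [hn] at this
      exact this.symm
    · rw [hm, zpow_neg, zpow_natCast] at hn
      have h1 : (π ^ m) b = a := by
        rw [← hn]
        simp
      have := hp m b
      rw [h1] at this
      exact this
  · intro a b hab
    apply Quotient.sound
    exact ⟨1, by rw [zpow_one]; exact hab.symm⟩
  · intro q
    induction q using Quotient.ind with
    | _ d => rfl
  · intro q
    induction q using Quot.ind with
    | mk d => rfl

private theorem out_three {f : Perm D} (hf : TF f) (F : Finset D) (hF : ∀ d, d ∉ F → f d ∉ F) :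
    3 * Nat.card (Quot fun a b : {d // d ∉ F} => (b : D) = f a) = Fintype.card D - F.card := by
  classical
  obtain ⟨V, hV⟩ : ∃ V : Type, V = {d // d ∉ F} := ⟨_, rfl⟩
  have hc : Fintype.card {d // d ∉ F} = Fintype.card D - F.card := by
    rw [Fintype.card_subtype_compl]
    simp
  rw [← hc]
  obtain ⟨r, hr⟩ : ∃ r : {d // d ∉ F} → {d // d ∉ F} → Prop, r = fun (a b : {d // d ∉ F}) => (b : D) = f a :=
    ⟨_, rfl⟩
  rw [← hr]
  letI : Fintype (Quot r) := Fintype.ofFinite _
  have h1 : Fintype.card {d // d ∉ F} = ∑ q : Quot r, (Finset.univ.filter (fun v => Quot.mk r v = q)).card := by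
    rw [← Finset.card_univ]
    exact Finset.card_eq_sum_card_fiberwise (fun v _ => Finset.mem_coe.2 (Finset.mem_univ _))
  have hne1 : ∀ d : D, d ≠ f d := fun d h => hf.nf d h.symm
  have hne2 : ∀ d : D, f (f d) ≠ d := by
    intro d h
    have := hf.three d
    rw [h] at this
    exact hf.nf d this
  have h2 : ∀ q : Quot r, (Finset.univ.filter (fun v => Quot.mk r v = q)).card = 3 := by
    intro q
    induction q using Quot.ind with
    | mk v0 =>
      obtain ⟨φ, hφ⟩ : ∃ φ : {d // d ∉ F} → Finset D, ∀ v, φ v = {v.1, f v.1, f (f v.1)} := ⟨_, fun _ => rfl⟩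
      have hφr : ∀ a b, r a b → φ a = φ b := by
        intro a b hab
        rw [hr] at hab
        rw [hφ, hφ, hab, hf.three]
        ext x
        simp only [Finset.mem_insert, Finset.mem_singleton]
        tauto
      have h3 : Finset.univ.filter (fun v => Quot.mk r v = Quot.mk r v0) =
          {v0, ⟨f v0.1, hF _ v0.2⟩, ⟨f (f v0.1), hF _ (hF _ v0.2)⟩} := by
        ext v
        simp only [Finset.mem_filter, Finset.mem_univ, true_and, Finset.mem_insert, Finset.mem_singleton]
        constructor
        · intro h
          have h4 : φ v = φ v0 := congrArg (Quot.lift φ hφr) h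
          have h5 : v.1 ∈ φ v0 := by
            rw [← h4, hφ]
            exact Finset.mem_insert_self _ _
          rw [hφ] at h5
          simp only [Finset.mem_insert, Finset.mem_singleton] at h5
          rcases h5 with h5 | h5 | h5
          · exact Or.inl (Subtype.ext h5)
          · exact Or.inr (Or.inl (Subtype.ext h5))
          · exact Or.inr (Or.inr (Subtype.ext h5))
        · have e1 : Quot.mk r ⟨f v0.1, hF _ v0.2⟩ = Quot.mk r v0 := by
            symm
            apply Quot.sound
            rw [hr]
          have e2 : Quot.mk r ⟨f (f v0.1), hF _ (hF _ v0.2)⟩ = Quot.mk r v0 := by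
            rw [← e1]
            symm
            apply Quot.sound
            rw [hr]
          rintro (h | h | h)
          · rw [h]
          · rw [h, e1]
          · rw [h, e2]
      rw [h3]
      rw [Finset.card_eq_three]
      refine ⟨_, _, _, ?_, ?_, ?_, rfl⟩
      · intro h
        exact hne1 _ (congrArg Subtype.val h)
      · intro h
        exact hne2 _ (congrArg Subtype.val h).symm
      · intro h
        exact hne1 _ (congrArg Subtype.val h)
  rw [h1, Finset.sum_congr rfl (fun q _ => h2 q), Finset.sum_const, Finset.card_univ, Nat.card_eq_fintype_card]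
  rw [smul_eq_mul, mul_comm]

private theorem inn_apply {α : Perm D} (h1 : ∀ d, α (α d) = d) (F : Finset D) (d : D) :
    inn α F d = if d ∈ F ∧ α d ∈ F then α d else d := by
  unfold inn
  rw [dif_pos h1]
  simp only [Equiv.coe_fn_mk]

theorem exc_in {f α : Perm D} (hf : TF f) (h1 : ∀ d, α (α d) = d) (h2 : ∀ d, α d ≠ d) (F : Finset D)
    (hF : ∀ d ∈ F, f d ∈ F) (hn : F.Nonempty) (hc : Cf f α F) :
    exc f (inn α F) = 12 + 3 * ((F.filter fun d => α d ∈ F).card : ℤ) - 2 * (F.card : ℤ) -
      6 * (vb f α F : ℤ) := by
  classical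
  have hF' : ∀ d, d ∉ F → f d ∉ F := by
    intro d hd h
    have h3 := hF _ (hF _ h)
    rw [hf.three] at h3
    exact hd h3
  have hβ := inn_apply h1 F
  have hT := out_three hf F hF'
  obtain ⟨T, hTd⟩ : ∃ T : ℕ, T = Nat.card (Quot fun a b : {d // d ∉ F} => (b : D) = f a) := ⟨_, rfl⟩
  rw [← hTd] at hT
  have hFc : F.card ≤ Fintype.card D := Finset.card_le_univ F
  -- components
  have hcmp : cmp f (inn α F) = 1 + T := by
    unfold cmp
    rw [quot_split _ F]
    · congr 1
      · rw [Nat.card_eq_one_iff_unique]
        obtain ⟨x0, hx0⟩ := hn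
        have h3 := hc (fun d => ∀ h : d ∈ F, Quot.mk (fun a b : {d // d ∈ F} => (b : D) = f a ∨ (b : D) = inn α F a)
          ⟨d, h⟩ = Quot.mk _ ⟨x0, hx0⟩) (by
            intro d hd h4 h5
            rw [← h4 hd]
            exact (Quot.sound (r := fun a b : {d // d ∈ F} => (b : D) = f a ∨ (b : D) = inn α F a)
              (Or.inl rfl)).symm) (by
            intro d hd hαd h4 h5
            rw [← h4 hd]
            refine (Quot.sound (r := fun a b : {d // d ∈ F} => (b : D) = f a ∨ (b : D) = inn α F a)
              (Or.inr ?_)).symm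
            show α d = inn α F d
            rw [hβ, if_pos ⟨hd, hαd⟩]) ⟨x0, hx0, fun _ => rfl⟩
        refine ⟨⟨fun p q => ?_⟩, ⟨Quot.mk _ ⟨x0, hx0⟩⟩⟩
        induction p using Quot.ind with
        | mk a =>
          induction q using Quot.ind with
          | mk b =>
            exact (h3 a.1 a.2 a.2).trans (h3 b.1 b.2 b.2).symm
      · rw [hTd]
        apply quot_same
        · intro a b hab
          rcases hab with hab | hab
          · exact Quot.sound hab
          · rw [hβ, if_neg (fun h => a.2 h.1)] at hab
            rw [Subtype.ext hab]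
        · intro a b hab
          exact Quot.sound (Or.inl hab)
    · intro a b hab
      rcases hab with hab | hab
      · rw [hab]
        exact ⟨fun h => hF _ h, fun h => by by_contra hc; exact hF' _ hc h⟩
      · rw [hab, hβ]
        split_ifs with h3
        · exact ⟨fun _ => h3.2, fun _ => h3.1⟩
        · rfl
  -- cycles
  have hcyc : cyc (f * inn α F) = vb f α F + T := by
    rw [cyc_quot, quot_split _ F]
    · congr 1
      · unfold vb
        congr 2
        funext a b
        rw [Perm.mul_apply, hβ]
        unfold stp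
        congr
      · rw [hTd]
        congr 2
        funext a b
        rw [Perm.mul_apply, hβ, if_neg (fun h => a.2 h.1)]
    · intro a b hab
      rw [hab, Perm.mul_apply, hβ]
      split_ifs with h3
      · exact ⟨fun _ => hF _ h3.2, fun _ => h3.1⟩
      · exact ⟨fun h => hF _ h, fun h => by by_contra hc; exact hF' _ hc h⟩
  have hmv : (Finset.univ.filter fun d => inn α F d ≠ d) = F.filter fun d => α d ∈ F := by
    ext d
    rw [Finset.mem_filter, Finset.mem_filter, hβ]
    constructor
    · rintro ⟨_, h⟩
      by_contra hcon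
      apply h
      rw [if_neg hcon]
    · intro h
      refine ⟨Finset.mem_univ _, ?_⟩
      rw [if_pos h]
      exact h2 d
  unfold exc
  rw [hcmp, hcyc, hmv]
  have hT' : (3 : ℤ) * T = Fintype.card D - F.card := by
    have : (3 * T : ℕ) + F.card = Fintype.card D := by omega
    have h3 : ((3 * T + F.card : ℕ) : ℤ) = (Fintype.card D : ℤ) := by exact_mod_cast this
    push_cast at h3
    linarith
  push_cast
  linarith

theorem plan_mono {f α : Perm D} (hf : TF f) (h1 : ∀ d, α (α d) = d) (h2 : ∀ d, α d ≠ d)
    (F F' : Finset D) (hF : ∀ d ∈ F, f d ∈ F) (hF' : ∀ d ∈ F', f d ∈ F') (hn : F.Nonempty)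
    (hc : Cf f α F) (hc' : Cf f α F') (hs : F ⊆ F') (hp : Plan f α F') : Plan f α F := by
  have hn' : F'.Nonempty := hn.mono hs
  have e1 := exc_in hf h1 h2 F hF hn hc
  have e2 := exc_in hf h1 h2 F' hF' hn' hc'
  have hinv : ∀ (G : Finset D) (d : D), inn α G (inn α G d) = d := by
    intro G d
    rw [inn_apply h1, inn_apply h1]
    split_ifs with h3 h4 h4
    · exact h1 d
    · exfalso
      apply h4
      rw [h1]
      exact ⟨h3.2, h3.1⟩
    · rfl
    
  have h0 := exc_one hf
  have m1 := exc_mono (f := f) (β := 1) (β' := inn α F) (fun d => rfl) (hinv F) (fun d hd => absurd rfl hd)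
  have m2 := exc_mono (f := f) (β := inn α F) (β' := inn α F') (hinv F) (hinv F') (by
    intro d hd
    rw [inn_apply h1] at hd ⊢
    rw [inn_apply h1]
    by_cases h3 : d ∈ F ∧ α d ∈ F
    · rw [if_pos h3, if_pos ⟨hs h3.1, hs h3.2⟩]
    · rw [if_neg h3] at hd
      exact absurd rfl hd)
  unfold Plan at hp ⊢
  have hp' : (6 : ℤ) * vb f α F' + 2 * F'.card = 3 * (F'.filter fun d => α d ∈ F').card + 12 := by
    exact_mod_cast hp
  have : (6 : ℤ) * vb f α F + 2 * F.card = 3 * (F.filter fun d => α d ∈ F).card + 12 := by linarith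
  exact_mod_cast this

end QE39
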