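import Pool.Agent.H39.QE.Mid
import Pool.Agent.H39.UN.FinA

/-!
Module FIN (P186, assembly). The final theorem in the notation of the frozen statement S19605.

`qball σ α a r` : darts of the faces with a vertex at distance at most `r - 1` from the vertex `a`, in the graph `G`;
`qstep`, `qvb`, `QPlan`, `QRplan` as in QD/Defs.

Proof. As in UN/FinA (and HG/Final, HG/Model): `S n` is the disjoint union over `f` (`TF f`) of the `α ∈ TS f (v n)`,
`p = (f * α⁻¹, α)`, `f = p.1 * p.2`, `f * α = p.1 * p.2 * p.2 = p.1`; the graph `G n p` is `gr p.1 p.2` (`gr_eq`/`model` in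
HG/Model), the vertices are `Quotient (SameCycle.setoid p.1)`, in bijection with the representatives `x` (`rep f α x = x`), and
`QRplan = rplan f α x`. `v n = n + 2 - 2 g n` (for large `n`), `v n = n mod 2`. For every `p` the number of bad vertices divided by the
number `v n` of vertices; sum over `p ∈ S n` of the number of bad vertices = `Σ_f #{(α, x) bad} ≤ n^(1-η) #S n` (`mid`), and
`v n ≥ ω1 n`, so the quotient is at most `n^(-η)/ω1 → 0`.
-/

set_option autoImplicit false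

namespace QE39

open Equiv HG39 QD39 UI39 Filter Topology

/-- darts of the faces which have a vertex at distance at most `r - 1` from `a`, for the graph `G` -/
noncomputable def qball {n : ℕ} (σ α : Equiv.Perm (Fin (6 * n)))
    (G : SimpleGraph (Quotient (Equiv.Perm.SameCycle.setoid σ)))
    (a : Quotient (Equiv.Perm.SameCycle.setoid σ)) (r : ℕ) : Finset (Fin (6 * n)) :=
  open Classical in
  Finset.univ.filter fun d => ∃ e, (e = d ∨ e = σ (α d) ∨ e = σ (α (σ (α d)))) ∧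
    G.dist a (Quotient.mk (Equiv.Perm.SameCycle.setoid σ) e) < r

/-- one step around a vertex, or along the boundary, of the surface glued from the faces in `F` -/
def qstep {n : ℕ} (σ α : Equiv.Perm (Fin (6 * n))) (F : Finset (Fin (6 * n))) (d : Fin (6 * n)) :
    Fin (6 * n) := σ (α (if d ∈ F ∧ α d ∈ F then α d else d))

/-- number of interior vertices plus number of boundary components of the surface `F` -/
noncomputable def qvb {n : ℕ} (σ α : Equiv.Perm (Fin (6 * n))) (F : Finset (Fin (6 * n))) : ℕ :=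
  Nat.card (Quot fun a b : {d // d ∈ F} => (b : Fin (6 * n)) = qstep σ α F a)

/-- the connected surface glued from the faces in `F` has genus zero -/
def QPlan {n : ℕ} (σ α : Equiv.Perm (Fin (6 * n))) (F : Finset (Fin (6 * n))) : Prop :=
  6 * qvb σ α F + 2 * F.card = 3 * (F.filter fun d => α d ∈ F).card + 12

/-- the planarity radius of the vertex `a` -/
noncomputable def QRplan {n : ℕ} (σ α : Equiv.Perm (Fin (6 * n)))
    (G : SimpleGraph (Quotient (Equiv.Perm.SameCycle.setoid σ)))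
    (a : Quotient (Equiv.Perm.SameCycle.setoid σ)) : ℕ :=
  sSup {r | 1 ≤ r ∧ QPlan σ α (qball σ α G a r)}

private theorem fin_v {θ : ℝ} (h1 : θ < 1 / 2) {g : ℕ → ℕ}
    (hg : Tendsto (fun n : ℕ => (g n : ℝ) / (n : ℝ)) atTop (𝓝 θ)) :
    Tendsto (fun n : ℕ => ((n + 2 - 2 * g n : ℕ) : ℝ) / (n : ℝ)) atTop (𝓝 (1 - 2 * θ)) ∧
      ∀ᶠ n : ℕ in atTop, (n + 2 - 2 * g n) % 2 = n % 2 := by
  have h2 : Tendsto (fun n : ℕ => 1 + 2 / (n : ℝ) - 2 * ((g n : ℝ) / (n : ℝ))) atTop
      (𝓝 (1 + 0 - 2 * θ)) := by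
    have h3 : Tendsto (fun n : ℕ => 2 / (n : ℝ)) atTop (𝓝 0) :=
      tendsto_const_div_atTop_nhds_zero_nat 2
    exact (tendsto_const_nhds.add h3).sub (hg.const_mul 2)
  rw [add_zero] at h2
  have h4 : ∀ᶠ n : ℕ in atTop, (g n : ℝ) / (n : ℝ) < 1 / 2 := hg.eventually (gt_mem_nhds h1)
  have h6 : ∀ᶠ n : ℕ in atTop, 1 ≤ n ∧ 2 * g n ≤ n + 2 := by
    filter_upwards [h4, eventually_ge_atTop 1] with n hn hn1
    refine ⟨hn1, ?_⟩
    have hnp : (0 : ℝ) < n := by exact_mod_cast hn1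
    have h5 : (2 * g n : ℝ) < n := by
      rw [div_lt_iff₀ hnp] at hn
      linarith
    have : 2 * g n < n := by exact_mod_cast h5
    omega
  constructor
  · refine h2.congr' ?_
    filter_upwards [h6] with n hn
    have hnp : (0 : ℝ) < n := by exact_mod_cast hn.1
    rw [Nat.cast_sub hn.2]
    push_cast
    field_simp
  · filter_upwards [h6] with n hn
    omega

private theorem fin_dist {D : Type} [Fintype D] [DecidableEq D] (σ τ α : Perm D) (h : τ = σ)
    (x y : D) : (gr τ α).dist (Quotient.mk (Equiv.Perm.SameCycle.setoid τ) x)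
      (Quotient.mk (Equiv.Perm.SameCycle.setoid τ) y) =
    (gr σ α).dist (Quotient.mk (Equiv.Perm.SameCycle.setoid σ) x)
      (Quotient.mk (Equiv.Perm.SameCycle.setoid σ) y) := by
  subst h
  rfl

private theorem fin_ball {n : ℕ} (σ α : Perm (Fin (6 * n))) (h : σ * α * α = σ) (x : Fin (6 * n))
    (r : ℕ) : qball σ α (gr σ α) (Quotient.mk (Equiv.Perm.SameCycle.setoid σ) x) r
      = ball (σ * α) α x r := by
  classical
  have hd : ∀ y, dst (σ * α) α x y = (gr σ α).dist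
      (Quotient.mk (Equiv.Perm.SameCycle.setoid σ) x)
      (Quotient.mk (Equiv.Perm.SameCycle.setoid σ) y) := fun y =>
    fin_dist σ (σ * α * α) α h x y
  ext d
  unfold qball ball
  simp only [Finset.mem_filter, Finset.mem_univ, true_and, hd]
  constructor
  · rintro ⟨e, rfl | rfl | rfl, he⟩
    · exact Or.inl he
    · exact Or.inr (Or.inl he)
    · exact Or.inr (Or.inr he)
  · rintro (he | he | he)
    · exact ⟨_, Or.inl rfl, he⟩
    · exact ⟨_, Or.inr (Or.inl rfl), he⟩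
    · exact ⟨_, Or.inr (Or.inr rfl), he⟩

private theorem fin_rplan {n : ℕ} (σ α : Perm (Fin (6 * n))) (h : σ * α * α = σ) (x : Fin (6 * n)) :
    QRplan σ α (gr σ α) (Quotient.mk (Equiv.Perm.SameCycle.setoid σ) x) = rplan (σ * α) α x := by
  unfold QRplan rplan
  congr 1
  ext r
  change (1 ≤ r ∧ QPlan σ α (qball σ α (gr σ α) (Quotient.mk (Equiv.Perm.SameCycle.setoid σ) x) r)) ↔
    (1 ≤ r ∧ Plan (σ * α) α (ball (σ * α) α x r))
  rw [fin_ball σ α h x r]
  exact Iff.rfl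

private theorem fin_rep {n : ℕ} (σ τ : Perm (Fin (6 * n))) (h : τ = σ) (x : Fin (6 * n)) :
    Quotient.out (Quotient.mk (Equiv.Perm.SameCycle.setoid τ) x) =
    Quotient.out (Quotient.mk (Equiv.Perm.SameCycle.setoid σ) x) := by
  subst h
  rfl

private theorem fin_count {n : ℕ} (σ α : Perm (Fin (6 * n))) (h : σ * α * α = σ) (P : ℕ → Prop) :
    Nat.card {a : Quotient (Equiv.Perm.SameCycle.setoid σ) // P (QRplan σ α (gr σ α) a)} ≤
      Nat.card {x : Fin (6 * n) // rep (σ * α) α x = x ∧ P (rplan (σ * α) α x)} := by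
  refine Nat.card_le_card_of_injective (fun a => ⟨Quotient.out a.1, ?_, ?_⟩) ?_
  · show Quotient.out (Quotient.mk (Equiv.Perm.SameCycle.setoid (σ * α * α)) (Quotient.out a.1)) = _
    rw [fin_rep σ (σ * α * α) h, Quotient.out_eq]
  · have h1 := a.2
    rw [← Quotient.out_eq a.1] at h1
    rw [← fin_rplan σ α h]
    exact h1
  · intro a b hab
    have h1 : Quotient.out a.1 = Quotient.out b.1 := congrArg (fun z => z.1) hab
    exact Subtype.ext (Quotient.out_injective h1)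

open Classical in
private theorem fin_sum {n v : ℕ} (Sn : Finset (Perm (Fin (6 * n)) × Perm (Fin (6 * n))))
    (hS : ∀ p, p ∈ Sn ↔ TF (p.1 * p.2) ∧ p.2 ∈ TS (p.1 * p.2) v ∧ p.2 * p.2 = 1)
    (P : ℕ → Prop) (B : ℝ)
    (hB : ∀ f : Perm (Fin (6 * n)), TF f →
      (({q : Perm (Fin (6 * n)) × Fin (6 * n) | q.1 ∈ TS f v ∧ rep f q.1 q.2 = q.2 ∧
        P (rplan f q.1 q.2)}.ncard : ℕ) : ℝ) ≤ B * (TS f v).ncard) :
    (∑ p ∈ Sn, (Nat.card {a : Quotient (Equiv.Perm.SameCycle.setoid p.1) //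
      P (QRplan p.1 p.2 (gr p.1 p.2) a)} : ℝ) / (v : ℝ)) ≤ B / v * Sn.card := by
  let W : Perm (Fin (6 * n)) → Perm (Fin (6 * n)) → ℝ := fun f α =>
    (Nat.card {x : Fin (6 * n) // rep f α x = x ∧ P (rplan f α x)} : ℝ) / v
  have h1 : (∑ p ∈ Sn, (Nat.card {a : Quotient (Equiv.Perm.SameCycle.setoid p.1) //
      P (QRplan p.1 p.2 (gr p.1 p.2) a)} : ℝ) / (v : ℝ)) ≤ ∑ p ∈ Sn, W (p.1 * p.2) p.2 := by
    refine Finset.sum_le_sum fun p hp => ?_
    obtain ⟨a1, a2, a3⟩ := (hS p).1 hp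
    have hmul : p.1 * p.2 * p.2 = p.1 := by rw [mul_assoc, a3, mul_one]
    refine div_le_div_of_nonneg_right ?_ (Nat.cast_nonneg _)
    exact_mod_cast fin_count p.1 p.2 hmul P
  refine h1.trans ?_
  rw [sum_model Sn hS W, card_model Sn hS, Finset.mul_sum]
  refine Finset.sum_le_sum fun f hf => ?_
  have htf : TF f := (Finset.mem_filter.1 hf).2
  have h2 := hB f htf
  have h3 := ncard_fib (fun α : Perm (Fin (6 * n)) => α ∈ TS f v)
    (fun α (x : Fin (6 * n)) => rep f α x = x ∧ P (rplan f α x))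
  rw [h3] at h2
  push_cast at h2
  calc ∑ α ∈ Finset.univ.filter (fun α => α ∈ TS f v), W f α
      = (∑ α ∈ Finset.univ.filter (fun α => α ∈ TS f v),
        (Nat.card {x : Fin (6 * n) // rep f α x = x ∧ P (rplan f α x)} : ℝ)) / v := by
        rw [Finset.sum_div]
    _ ≤ B * (TS f v).ncard / v := div_le_div_of_nonneg_right h2 (Nat.cast_nonneg _)
    _ = B / v * (TS f v).ncard := by ring

theorem fin (hL : StL) (hG' : StG) (hU : StU) :
  ∀ θ : ℝ, 0 < θ → θ < 1/2 →
  ∀ g : ℕ → ℕ, Filter.Tendsto (fun n : ℕ => (g n : ℝ) / (n : ℝ)) Filter.atTop (nhds θ) →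
  ∀ h : ℝ, 0 < h → h < 1/4 →
    (1 - 2*θ) / 6 = h / ((1 + 8*h) * Real.sqrt (1 - 4*h)) *
      Real.log ((1 + Real.sqrt (1 - 4*h)) / (1 - Real.sqrt (1 - 4*h))) →
  ∀ S : (n : ℕ) → Finset (Equiv.Perm (Fin (6*n)) × Equiv.Perm (Fin (6*n))),
    (∀ (n : ℕ) (p : Equiv.Perm (Fin (6*n)) × Equiv.Perm (Fin (6*n))),
      p ∈ S n ↔
        ((∀ x : Fin (6*n), p.2 x ≠ x ∧ p.2 (p.2 x) = x) ∧
         (∀ x : Fin (6*n), (p.1 * p.2) x ≠ x ∧ ((p.1 * p.2)^3) x = x) ∧
         (∀ x y : Fin (6*n), ∃ w ∈ Subgroup.closure ({p.1, p.2} : Set (Equiv.Perm (Fin (6*n)))), w x = y) ∧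
         Nat.card (Quotient (Equiv.Perm.SameCycle.setoid p.1)) + 2 * g n = n + 2)) →
  ∀ G : (n : ℕ) → (p : Equiv.Perm (Fin (6*n)) × Equiv.Perm (Fin (6*n))) →
      SimpleGraph (Quotient (Equiv.Perm.SameCycle.setoid p.1)),
    (∀ (n : ℕ) (p : Equiv.Perm (Fin (6*n)) × Equiv.Perm (Fin (6*n)))
       (a b : Quotient (Equiv.Perm.SameCycle.setoid p.1)),
      (G n p).Adj a b ↔
        (a ≠ b ∧ ∃ x : Fin (6*n),
          ((Quotient.mk (Equiv.Perm.SameCycle.setoid p.1) x = a ∧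
            Quotient.mk (Equiv.Perm.SameCycle.setoid p.1) (p.2 x) = b) ∨
           (Quotient.mk (Equiv.Perm.SameCycle.setoid p.1) x = b ∧
            Quotient.mk (Equiv.Perm.SameCycle.setoid p.1) (p.2 x) = a)))) →
  ∀ ε : ℝ, 0 < ε →
    Filter.Tendsto
      (fun n : ℕ =>
        (∑ p ∈ S n,
          (Nat.card {a : Quotient (Equiv.Perm.SameCycle.setoid p.1) //
              ε < |(QRplan p.1 p.2 (G n p) a : ℝ) / Real.log (n : ℝ)
                    - 1 / 2 * (1 / (-Real.log ((1 - 2*h - Real.sqrt (1 - 4*h)) / (2*h))))|} : ℝ)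
            / (Nat.card (Quotient (Equiv.Perm.SameCycle.setoid p.1)) : ℝ))
          / ((S n).card : ℝ))
      Filter.atTop (nhds 0) := by
  classical
  intro θ hθ0 hθ1 g hg h h0 h1 hdl S hS G hG ε hε
  have hdl' : 1 - 2 * θ = 6 * UN39.dl h := by
    have : (1 - 2 * θ) / 6 = UN39.dl h := hdl
    linarith
  obtain ⟨hv, hp⟩ := fin_v hθ1 hg
  have hω : 0 < (1 - 2 * θ) / 2 := by linarith
  have hvlow : ∀ᶠ n : ℕ in atTop, (1 - 2 * θ) / 2 < ((n + 2 - 2 * g n : ℕ) : ℝ) / (n : ℝ) :=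
    hv.eventually (lt_mem_nhds (by linarith))
  have hv6 : Tendsto (fun n : ℕ => ((n + 2 - 2 * g n : ℕ) : ℝ) / (n : ℝ)) atTop
      (𝓝 (6 * UN39.dl h)) := by
    rw [← hdl']
    exact hv
  obtain ⟨η, hη, n0, hmid⟩ := mid hL hG' hU h h0 h1 (fun n => n + 2 - 2 * g n) hv6 hp ε hε
  -- the model
  have hS' : ∀ n : ℕ, 1 ≤ n → ∀ p, p ∈ S n ↔ HG39.TF (p.1 * p.2) ∧
      p.2 ∈ HG39.TS (p.1 * p.2) (n + 2 - 2 * g n) ∧ p.2 * p.2 = 1 := by
    intro n hn p
    rw [← HG39.model_iff, hS, HG39.Mod]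
    have hne : Nonempty (Fin (6 * n)) := ⟨⟨0, by omega⟩⟩
    have hq : Nonempty (Quotient (Equiv.Perm.SameCycle.setoid p.1)) :=
      ⟨Quotient.mk _ hne.some⟩
    have hc : 0 < Nat.card (Quotient (Equiv.Perm.SameCycle.setoid p.1)) := Nat.card_pos
    constructor
    · rintro ⟨a1, a2, a3, a4⟩
      exact ⟨a1, a2, a3, by omega⟩
    · rintro ⟨a1, a2, a3, a4⟩
      exact ⟨a1, a2, a3, by omega⟩
  have hGr : ∀ n p, G n p = gr p.1 p.2 := by
    intro n p
    ext a b
    rw [hG]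
    rfl
  have hlim : Tendsto (fun n : ℕ => (n : ℝ) ^ (-η) * (2 / (1 - 2 * θ))) atTop (𝓝 0) := by
    have h2 : Tendsto (fun n : ℕ => (n : ℝ) ^ (-η)) atTop (𝓝 0) :=
      (tendsto_rpow_neg_atTop hη).comp tendsto_natCast_atTop_atTop
    have := h2.mul_const (2 / (1 - 2 * θ))
    rwa [zero_mul] at this
  refine squeeze_zero' (Filter.Eventually.of_forall fun n => ?_) ?_ hlim
  · apply div_nonneg _ (Nat.cast_nonneg _)
    apply Finset.sum_nonneg
    intro p _
    positivity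
  · filter_upwards [hvlow, eventually_ge_atTop (n0 + 1)] with n hnv hn
    have hn1 : 1 ≤ n := by omega
    have hnp : (0 : ℝ) < n := by exact_mod_cast hn1
    have hvp : (1 - 2 * θ) / 2 * n < ((n + 2 - 2 * g n : ℕ) : ℝ) := by
      rwa [lt_div_iff₀ hnp] at hnv
    have hvp0 : (0 : ℝ) < ((n + 2 - 2 * g n : ℕ) : ℝ) := lt_trans (by positivity) hvp
    have key := fin_sum (S n) (hS' n hn1)
      (fun k => ε < |(k : ℝ) / Real.log (n : ℝ) - 1 / 2 * DD h|) ((n : ℝ) ^ (1 - η))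
      (fun f hf => hmid n (by omega) f hf)
    have hsum : (∑ p ∈ S n,
          (Nat.card {a : Quotient (Equiv.Perm.SameCycle.setoid p.1) //
              ε < |(QRplan p.1 p.2 (G n p) a : ℝ) / Real.log (n : ℝ)
                    - 1 / 2 * (1 / (-Real.log ((1 - 2*h - Real.sqrt (1 - 4*h)) / (2*h))))|} : ℝ)
            / (Nat.card (Quotient (Equiv.Perm.SameCycle.setoid p.1)) : ℝ)) ≤
        (n : ℝ) ^ (1 - η) / ((n + 2 - 2 * g n : ℕ) : ℝ) * (S n).card := by
      refine le_trans (le_of_eq ?_) key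
      refine Finset.sum_congr rfl fun p hp => ?_
      obtain ⟨-, -, -, a4⟩ := (hS n p).1 hp
      have hcard : Nat.card (Quotient (Equiv.Perm.SameCycle.setoid p.1)) = n + 2 - 2 * g n := by
        omega
      rw [hcard, hGr n p]
      rfl
    rcases Nat.eq_zero_or_pos (S n).card with hc | hc
    · rw [hc, Nat.cast_zero, div_zero]
      have : 0 < 1 - 2 * θ := by linarith
      positivity
    · have hc' : (0 : ℝ) < (S n).card := by exact_mod_cast hc
      rw [div_le_iff₀ hc']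
      refine hsum.trans (mul_le_mul_of_nonneg_right ?_ hc'.le)
      have h2 : (n : ℝ) ^ (1 - η) = (n : ℝ) ^ (-η) * n := by
        rw [show (1 : ℝ) - η = -η + 1 by ring, Real.rpow_add hnp, Real.rpow_one]
      rw [h2, mul_div_assoc]
      refine mul_le_mul_of_nonneg_left ?_ (Real.rpow_nonneg hnp.le _)
      have h3 : 0 < 1 - 2 * θ := by linarith
      rw [div_le_div_iff₀ hvp0 h3]
      nlinarith

end QE39
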