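import Pool.Agent.H39.QE.Ball
import Pool.Agent.H39.QE.ExcF
import Pool.Agent.H39.HG.GraphLab

/-!
Module LAY (P186, assembly). Layers: legs, growth and Euler's formula for balls.

Proofs.
`legs_zt`: the map `d ↦ f d` sends the legs of `ball r` injectively into the descending darts of level `r`: let `d ∈ ball r`,
`α d ∉ ball r`. The face of `α d` has all its vertices at distance `≥ r`; `α d` starts where `f d` starts and `f (α d)` starts where `d`
starts (`dst_f`), so `dst d ≥ r`, `dst (f d) ≥ r`, hence `dst (f f d) < r` (`d ∈ ball`), and `dst_adj` gives `dst (f d) = r`,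
`dst (f f d) + 1 = r`.
`legs_grow`: `d ↦ α d` sends the legs of `ball r` injectively into `ball (r+1) \ ball r` (`dst (α d) = dst (f d) = r < r + 1`).
`lt_ball`: every dart of level `r` is in `ball (r+1)`.
`vb_le`: a class of `stp` on `F = ball r` without legs is a full cycle of `f α` (for `d ∈ F` not a leg `stp d = f (α d)`), i.e. a vertex, and
it has distance `≤ r` (a dart in `ball r` has distance `≤ r`: one of the three vertices of its face has distance `< r`);
the classes with a leg are at most `#legs`. The number of vertices at distance `i ≥ 1` is at most `zt i` (every such vertex has a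
descending dart, `dst_desc`), there is one vertex at distance `0`.
`faces_le`: `Plan`: `6 vb + 2 #F = 3 (#F - p) + 12` (`#{d ∈ F | α d ∈ F} = #F - p`), so `#F = 6 vb + 3 p - 12`.
`ball_mono`: `plan_mono` with `ball_f`, `ball_cf`, `ball_ss`, `ball_x`.
-/

set_option autoImplicit false

namespace QE39

open Equiv HG39 QD39 UI39

variable {D : Type} [Fintype D] [DecidableEq D]

omit [Fintype D] [DecidableEq D] in
private theorem ly_nl {f α : Perm D} (h : PT f α []) (d : D) : α d ≠ d := by
  intro h1
  have h2 := (h.leg d).1 h1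
  simp [tri] at h2

omit [DecidableEq D] in
private theorem ly_mem {f α : Perm D} (x : D) (r : ℕ) (d : D) : d ∈ ball f α x r ↔
    (dst f α x d < r ∨ dst f α x (f d) < r ∨ dst f α x (f (f d)) < r) := by
  rw [ball, Finset.mem_filter]
  exact ⟨fun h => h.2, fun h => ⟨Finset.mem_univ d, h⟩⟩

private theorem ly_leg {f α : Perm D} (h : PT f α []) (x : D) (r : ℕ) (d : D)
    (hd : d ∈ legs α (ball f α x r)) :
    dst f α x (f d) = r ∧ dst f α x (f (f d)) + 1 = r := by
  rw [legs, Finset.mem_filter, ly_mem, ly_mem] at hd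
  obtain ⟨h1, h2⟩ := hd
  have h3 := (dst_f h x d).1
  have h4 := (dst_f h x d).2
  have h5 := dst_adj h x (f d)
  have h6 : r ≤ dst f α x (α d) := by
    by_contra h7
    exact h2 (Or.inl (by omega))
  have h7 : r ≤ dst f α x (f (α d)) := by
    by_contra h8
    exact h2 (Or.inr (Or.inl (by omega)))
  have h8 : dst f α x (f (f d)) < r := by
    rcases h1 with h1 | h1 | h1
    · omega
    · omega
    · exact h1
  omega

theorem legs_zt {f α : Perm D} (hf : TF f) (h : PT f α []) (x : D) (r : ℕ) :
    (legs α (ball f α x r)).card ≤ zt f α x r := by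
  rw [zt]
  apply Finset.card_le_card_of_injOn f
  · intro d hd
    have h1 := ly_leg h x r d (Finset.mem_coe.1 hd)
    apply Finset.mem_coe.2
    exact Finset.mem_filter.2 ⟨Finset.mem_univ _, h1⟩
  · exact f.injective.injOn

theorem legs_grow {f α : Perm D} (hf : TF f) (h : PT f α []) (x : D) (r : ℕ) :
    (ball f α x r).card + (legs α (ball f α x r)).card ≤ (ball f α x (r + 1)).card := by
  have h1 : ((legs α (ball f α x r)).image α).card = (legs α (ball f α x r)).card :=
    Finset.card_image_of_injective _ α.injective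
  have h2 : Disjoint (ball f α x r) ((legs α (ball f α x r)).image α) := by
    rw [Finset.disjoint_left]
    intro d hd hd2
    obtain ⟨e, he, hed⟩ := Finset.mem_image.1 hd2
    rw [legs, Finset.mem_filter] at he
    rw [hed] at he
    exact he.2 hd
  rw [← h1, ← Finset.card_union_of_disjoint h2]
  apply Finset.card_le_card
  apply Finset.union_subset (ball_ss f α x (by omega))
  intro d hd
  obtain ⟨e, he, hed⟩ := Finset.mem_image.1 hd
  have h3 := (ly_leg h x r e he).1
  have h4 := (dst_f h x e).1
  rw [hed] at h4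
  exact (ly_mem x (r + 1) d).2 (Or.inl (by omega))

theorem lt_ball (f α : Perm D) (x : D) (r : ℕ) : lt f α x r ≤ (ball f α x (r + 1)).card := by
  rw [lt]
  apply Finset.card_le_card
  intro d hd
  have h1 := (Finset.mem_filter.1 hd).2
  exact (ly_mem x (r + 1) d).2 (Or.inl (by omega))

private theorem ly_stp {f α : Perm D} (hf : TF f) (x : D) (r : ℕ) (d : D)
    (hd : d ∈ ball f α x r) : stp f α (ball f α x r) d ∈ ball f α x r := by
  rw [stp]
  by_cases h : d ∈ ball f α x r ∧ α d ∈ ball f α x r
  · rw [if_pos h]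
    exact ball_f hf α x r _ h.2
  · rw [if_neg h]
    exact ball_f hf α x r _ hd

private theorem ly_near {f α : Perm D} (hf : TF f) (h : PT f α []) (x : D) (r : ℕ) (d : D)
    (hd : d ∈ ball f α x r) : dst f α x d ≤ r := by
  rcases (ly_mem x r d).1 hd with h1 | h1 | h1
  · omega
  · have h2 := (dst_adj h x d).2
    omega
  · have h2 := (dst_adj h x (f (f d))).1
    rw [hf.three] at h2
    omega

private theorem ly_cyc {f α : Perm D} (hf : TF f) (x : D) (r : ℕ)
    (q : Quot fun a b : {d // d ∈ ball f α x r} => (b : D) = stp f α (ball f α x r) a)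
    (hq : ∀ a : {d // d ∈ ball f α x r}, Quot.mk _ a = q → α (a : D) ∈ ball f α x r)
    (a : {d // d ∈ ball f α x r}) (ha : Quot.mk _ a = q) (k : ℕ) :
    ∃ b : {d // d ∈ ball f α x r}, (b : D) = ((f * α) ^ k) (a : D) ∧ Quot.mk _ b = q := by
  induction k with
  | zero => exact ⟨a, rfl, ha⟩
  | succ k ih =>
    obtain ⟨b, hb1, hb2⟩ := ih
    have h1 := hq b hb2
    have h2 : stp f α (ball f α x r) b = f (α b) := by
      rw [stp, if_pos ⟨b.2, h1⟩]
    refine ⟨⟨stp f α (ball f α x r) b, ly_stp hf x r b b.2⟩, ?_, ?_⟩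
    · change stp f α (ball f α x r) b = _
      rw [h2, hb1, pow_succ', Equiv.Perm.mul_apply, Equiv.Perm.mul_apply]
    · rw [← hb2]
      refine (Quot.sound ?_).symm
      rfl

theorem vb_le {f α : Perm D} (hf : TF f) (h : PT f α []) (x : D) (r : ℕ) :
    vb f α (ball f α x r) ≤ 1 + (∑ i ∈ Finset.Icc 1 r, zt f α x i) + (legs α (ball f α x r)).card := by
  classical
  set F := ball f α x r with hF
  set Q := Quot fun a b : {d // d ∈ F} => (b : D) = stp f α F a with hQ
  have hrep : ∀ q : Q, ∃ t : D ⊕ Option D,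
      (∀ d, t = Sum.inl d → ∃ a : {d // d ∈ F}, Quot.mk _ a = q ∧ (a : D) = d ∧ α d ∉ F) ∧
      (t = Sum.inr none → (∀ a : {d // d ∈ F}, Quot.mk _ a = q → α (a : D) ∈ F) ∧
        ∃ a : {d // d ∈ F}, Quot.mk _ a = q ∧ dst f α x a = 0) ∧
      (∀ e, t = Sum.inr (some e) → (∀ a : {d // d ∈ F}, Quot.mk _ a = q → α (a : D) ∈ F) ∧
        ∃ a : {d // d ∈ F}, Quot.mk _ a = q ∧ (f * α).SameCycle a e ∧ 0 < dst f α x a ∧
          dst f α x (f e) + 1 = dst f α x a) := by
    intro q
    by_cases h1 : ∀ a : {d // d ∈ F}, Quot.mk _ a = q → α (a : D) ∈ F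
    · obtain ⟨a, ha⟩ := Quot.exists_rep q
      rcases Nat.eq_zero_or_pos (dst f α x a) with h2 | h2
      · refine ⟨Sum.inr none, ?_, ?_, ?_⟩
        · intro d hd
          exact absurd hd (by simp)
        · intro _
          exact ⟨h1, a, ha, h2⟩
        · intro e he
          exact absurd he (by simp)
      · obtain ⟨e, he1, he2⟩ := dst_desc h x (a : D) h2
        refine ⟨Sum.inr (some e), ?_, ?_, ?_⟩
        · intro d hd
          exact absurd hd (by simp)
        · intro h3
          exact absurd h3 (by simp)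
        · intro e' he'
          have he3 : e = e' := Option.some_injective _ (Sum.inr_injective he')
          rw [← he3]
          exact ⟨h1, a, ha, he1, h2, he2⟩
    · push Not at h1
      obtain ⟨a, ha1, ha2⟩ := h1
      refine ⟨Sum.inl (a : D), ?_, ?_, ?_⟩
      · intro d hd
        have hd3 : (a : D) = d := Sum.inl_injective hd
        exact ⟨a, ha1, hd3, hd3 ▸ ha2⟩
      · intro h3
        exact absurd h3 (by simp)
      · intro e he
        exact absurd he (by simp)
  choose g hg1 hg2 hg3 using hrep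
  have hpow : ∀ q q' : Q, (∀ a : {d // d ∈ F}, Quot.mk _ a = q → α (a : D) ∈ F) →
      ∀ a a' : {d // d ∈ F}, Quot.mk _ a = q → Quot.mk _ a' = q' →
      (f * α).SameCycle (a : D) (a' : D) → q = q' := by
    intro q q' hq a a' ha ha' hs
    obtain ⟨k, hk⟩ := hs.exists_nat_pow_eq
    obtain ⟨b, hb1, hb2⟩ := ly_cyc hf x r q hq a ha k
    have h3 : b = a' := Subtype.ext (hb1.trans hk)
    rw [← hb2, h3, ha']
  have hinj : Function.Injective g := by
    intro q q' hqq
    rcases hgq : g q with d | _ | e
    · obtain ⟨a, ha1, ha2, _⟩ := hg1 q d hgq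
      obtain ⟨a', ha1', ha2', _⟩ := hg1 q' d (hqq ▸ hgq)
      have h3 : a = a' := Subtype.ext (ha2.trans ha2'.symm)
      rw [← ha1, h3, ha1']
    · obtain ⟨h1, a, ha1, ha2⟩ := hg2 q hgq
      obtain ⟨h1', a', ha1', ha2'⟩ := hg2 q' (hqq ▸ hgq)
      have h3 := (dst_lab hf h x).zro a a' (ly_nl h _) (ly_nl h _)
        (by simp only [ha2]; rfl) (by simp only [ha2']; rfl)
      exact hpow q q' h1 a a' ha1 ha1' h3
    · obtain ⟨h1, a, ha1, ha2, _⟩ := hg3 q e hgq
      obtain ⟨h1', a', ha1', ha2', _⟩ := hg3 q' e (hqq ▸ hgq)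
      exact hpow q q' h1 a a' ha1 ha1' (ha2.trans ha2'.symm)
  let Z : Finset D := (Finset.Icc 1 r).biUnion fun i =>
    Finset.univ.filter fun d => dst f α x d = i ∧ dst f α x (f d) + 1 = i
  let T : Finset (D ⊕ Option D) := (legs α F).disjSum (Finset.insertNone Z)
  have hT : ∀ q : Q, g q ∈ T := by
    intro q
    rcases hgq : g q with d | _ | e
    · obtain ⟨a, ha1, ha2, ha3⟩ := hg1 q d hgq
      apply Finset.inl_mem_disjSum.2
      rw [legs, Finset.mem_filter]
      exact ⟨ha2 ▸ a.2, ha3⟩
    · apply Finset.inr_mem_disjSum.2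
      exact Finset.none_mem_insertNone
    · obtain ⟨h1, a, ha1, ha2, ha3, ha4⟩ := hg3 q e hgq
      apply Finset.inr_mem_disjSum.2
      apply Finset.some_mem_insertNone.2
      apply Finset.mem_biUnion.2
      have h4 := ly_near hf h x r a a.2
      have h5 := dst_same (f := f) (α := α) x a e ha2
      refine ⟨dst f α x a, Finset.mem_Icc.2 ⟨ha3, h4⟩, ?_⟩
      apply Finset.mem_filter.2
      exact ⟨Finset.mem_univ _, h5.symm, ha4⟩
  have hcard : Nat.card Q ≤ T.card := by
    have h6 : Nat.card Q ≤ Nat.card {t // t ∈ T} := by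
      apply Nat.card_le_card_of_injective (fun q => (⟨g q, hT q⟩ : {t // t ∈ T}))
      intro q q' hqq
      exact hinj (congrArg Subtype.val hqq)
    have h7 : Nat.card {t // t ∈ T} = T.card := by
      rw [Nat.card_eq_fintype_card, Fintype.card_coe]
    omega
  have hZ : Z.card ≤ ∑ i ∈ Finset.Icc 1 r, zt f α x i := Finset.card_biUnion_le
  have hT2 : T.card = (legs α F).card + (Z.card + 1) := by
    rw [Finset.card_disjSum, Finset.card_insertNone]
  have hvb : vb f α F = Nat.card Q := rfl
  rw [hvb]
  omega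

theorem faces_le {f α : Perm D} (hf : TF f) (h : PT f α []) (x : D) (r : ℕ)
    (hp : Plan f α (ball f α x r)) :
    (ball f α x r).card ≤ 6 * (∑ i ∈ Finset.Icc 1 r, zt f α x i) + 9 * zt f α x r := by
  have h1 := vb_le hf h x r
  have h2 := legs_zt hf h x r
  have h3 : ((ball f α x r).filter fun d => α d ∈ ball f α x r).card +
      (legs α (ball f α x r)).card = (ball f α x r).card := by
    rw [legs]
    exact Finset.card_filter_add_card_filter_not _
  rw [Plan] at hp
  omega

theorem ball_mono {f α : Perm D} (hf : TF f) (h : PT f α []) (x : D) {r s : ℕ} (hr : 1 ≤ r) (hs : r ≤ s)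
    (hp : Plan f α (ball f α x s)) : Plan f α (ball f α x r) :=
  plan_mono hf h.inv (ly_nl h) (ball f α x r) (ball f α x s) (ball_f hf α x r) (ball_f hf α x s)
    ⟨x, ball_x f α x hr⟩ (ball_cf hf h x r) (ball_cf hf h x s) (ball_ss f α x hs) hp

end QE39
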