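import Pool.Agent.H39.QE.Up

/-!
Module MID (P186, assembly). Both halves together, for the triangulations with fixed faces `f`.

Proof. Outside the exceptional sets of `StL` (with `ε' = min ε (1/4) / 2` or so) and of `up`: all balls of radius
`1 ≤ r ≤ (1/2 - ε') D log n` are planar, no ball of radius `r > (1/2 + ε') D log n` is planar (in particular the set
`{r | 1 ≤ r ∧ Plan (ball r)}` is bounded), so `rplan = sSup` is between `⌊(1/2 - ε') D log n⌋` (`≥ 1` for large `n`) and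
`(1/2 + ε') D log n`: `|rplan / log n - D/2| ≤ ε' D + 1 / log n`. With `ε' D ≤ ε / 2` and `n` large this is `≤ ε`. Sum of the two bounds:
`2 n^(1-η) ≤ n^(1 - η/2)`.
-/

set_option autoImplicit false

namespace QE39

open Equiv HG39 QD39 UI39 Filter Topology

private theorem mid_DD {h : ℝ} (h0 : 0 < h) (h1 : h < 1 / 4) : 0 < DD h := by
  obtain ⟨m0, m1, _⟩ := mh_prop h h0 h1
  unfold DD
  apply one_div_pos.2
  have := Real.log_neg m0 m1
  linarith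

private theorem mid_sSup {S : Set ℕ} {a b : ℝ} (hb : 0 ≤ b) (h1 : ∀ r : ℕ, 1 ≤ r → (r : ℝ) ≤ a → r ∈ S)
    (h2 : ∀ r ∈ S, (r : ℝ) ≤ b) : a - 1 ≤ ((sSup S : ℕ) : ℝ) ∧ ((sSup S : ℕ) : ℝ) ≤ b := by
  have hbdd : BddAbove S := ⟨⌊b⌋₊, fun r hr => Nat.le_floor (h2 r hr)⟩
  constructor
  · rcases lt_or_ge a 1 with h | h
    · have : (0 : ℝ) ≤ ((sSup S : ℕ) : ℝ) := Nat.cast_nonneg _
      linarith
    · have h3 : 1 ≤ ⌊a⌋₊ := Nat.le_floor (by exact_mod_cast h)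
      have h4 := le_csSup hbdd (h1 ⌊a⌋₊ h3 (Nat.floor_le (by linarith)))
      have h5 : (⌊a⌋₊ : ℝ) ≤ ((sSup S : ℕ) : ℝ) := by exact_mod_cast h4
      have h6 := Nat.lt_floor_add_one a
      linarith
  · rcases S.eq_empty_or_nonempty with h | h
    · rw [h, csSup_empty]
      simpa using hb
    · exact h2 _ (Nat.sSup_mem h hbdd)

theorem mid (hL : StL) (hG : StG) (hU : StU) (h : ℝ) (h0 : 0 < h) (h1 : h < 1 / 4) (v : ℕ → ℕ)
    (hv : Tendsto (fun n => (v n : ℝ) / n) atTop (𝓝 (6 * UN39.dl h)))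
    (hp : ∀ᶠ n in atTop, v n % 2 = n % 2) (ε : ℝ) (hε : 0 < ε) :
    ∃ η : ℝ, 0 < η ∧ ∃ n0 : ℕ, ∀ n, n0 ≤ n → ∀ f : Perm (Fin (6 * n)), TF f →
    (({q : Perm (Fin (6 * n)) × Fin (6 * n) | q.1 ∈ TS f (v n) ∧ rep f q.1 q.2 = q.2 ∧
      ε < |(rplan f q.1 q.2 : ℝ) / Real.log n - 1 / 2 * DD h|}.ncard : ℕ) : ℝ) ≤
      (n : ℝ) ^ (1 - η) * (TS f (v n)).ncard := by
  have hD := mid_DD h0 h1
  set ε' : ℝ := min (ε / (2 * DD h)) (1 / 4) with hε'
  have hε0 : 0 < ε' := by positivity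
  have hε1 : ε' * DD h ≤ ε / 2 := by
    have h2 : ε' ≤ ε / (2 * DD h) := min_le_left _ _
    calc ε' * DD h ≤ ε / (2 * DD h) * DD h := by gcongr
      _ = ε / 2 := by field_simp
  have hε2 : ε' < 1 / 2 := lt_of_le_of_lt (min_le_right _ _) (by norm_num)
  obtain ⟨η1, hη1, n1, H1⟩ := hL h h0 h1 v hv hp ε' hε0 hε2
  obtain ⟨η2, hη2, n2, H2⟩ := up hG hU h h0 h1 v hv hp ε' hε0
  set η : ℝ := min η1 η2 / 2 with hη
  have hη0 : 0 < η := by positivity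
  have hηa : 2 * η ≤ η1 := by
    have := min_le_left η1 η2
    linarith
  have hηb : 2 * η ≤ η2 := by
    have := min_le_right η1 η2
    linarith
  obtain ⟨n3, hn3⟩ := exists_nat_ge (Real.exp (2 / ε))
  obtain ⟨n4, hn4⟩ := exists_nat_ge ((2 : ℝ) ^ (1 / η))
  refine ⟨η, hη0, n1 + n2 + n3 + n4 + 1, ?_⟩
  intro n hn f hf
  have hn0 : (1 : ℝ) ≤ n := by exact_mod_cast (by omega : 1 ≤ n)
  have hn0' : (0 : ℝ) < n := by linarith
  have hlog : 2 / ε ≤ Real.log n := by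
    rw [Real.le_log_iff_exp_le hn0']
    refine hn3.trans ?_
    exact_mod_cast (by omega : n3 ≤ n)
  have hlog0 : 0 < Real.log n := lt_of_lt_of_le (by positivity) hlog
  have hinv : 1 / Real.log n ≤ ε / 2 := by
    rw [div_le_iff₀ hlog0]
    have h3 : 2 ≤ Real.log n * ε := by
      rwa [div_le_iff₀ hε] at hlog
    linarith
  have hsub : {q : Perm (Fin (6 * n)) × Fin (6 * n) | q.1 ∈ TS f (v n) ∧ rep f q.1 q.2 = q.2 ∧
      ε < |(rplan f q.1 q.2 : ℝ) / Real.log n - 1 / 2 * DD h|} ⊆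
      {q : Perm (Fin (6 * n)) × Fin (6 * n) | q.1 ∈ TS f (v n) ∧ rep f q.1 q.2 = q.2 ∧
      ∃ r : ℕ, 1 ≤ r ∧ (r : ℝ) ≤ (1 / 2 - ε') * DD h * Real.log n ∧
        ¬ Plan f q.1 (ball f q.1 q.2 r)} ∪
      {q : Perm (Fin (6 * n)) × Fin (6 * n) | q.1 ∈ TS f (v n) ∧ rep f q.1 q.2 = q.2 ∧
      ∃ r : ℕ, (1 / 2 + ε') * DD h * Real.log n < r ∧ Plan f q.1 (ball f q.1 q.2 r)} := by
    rintro q ⟨hq1, hq2, hq3⟩
    by_contra hcon
    rw [Set.mem_union, not_or] at hcon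
    obtain ⟨hc1, hc2⟩ := hcon
    have hall : ∀ r : ℕ, 1 ≤ r → (r : ℝ) ≤ (1 / 2 - ε') * DD h * Real.log n →
        Plan f q.1 (ball f q.1 q.2 r) := by
      intro r hr1 hr2
      by_contra hr3
      exact hc1 ⟨hq1, hq2, r, hr1, hr2, hr3⟩
    have hnone : ∀ r : ℕ, Plan f q.1 (ball f q.1 q.2 r) →
        (r : ℝ) ≤ (1 / 2 + ε') * DD h * Real.log n := by
      intro r hr
      by_contra hr2
      push Not at hr2
      exact hc2 ⟨hq1, hq2, r, hr2, hr⟩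
    obtain ⟨k1, k2⟩ := mid_sSup (S := {r | 1 ≤ r ∧ Plan f q.1 (ball f q.1 q.2 r)})
      (a := (1 / 2 - ε') * DD h * Real.log n) (b := (1 / 2 + ε') * DD h * Real.log n)
      (by positivity) (fun r hr1 hr2 => ⟨hr1, hall r hr1 hr2⟩) (fun r hr => hnone r hr.2)
    have k1' : (1 / 2 - ε') * DD h * Real.log n - 1 ≤ (rplan f q.1 q.2 : ℝ) := k1
    have k2' : (rplan f q.1 q.2 : ℝ) ≤ (1 / 2 + ε') * DD h * Real.log n := k2
    have e1 : (rplan f q.1 q.2 : ℝ) / Real.log n ≤ (1 / 2 + ε') * DD h := by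
      rw [div_le_iff₀ hlog0]
      exact k2'
    have e2 : (1 / 2 - ε') * DD h - 1 / Real.log n ≤ (rplan f q.1 q.2 : ℝ) / Real.log n := by
      rw [le_div_iff₀ hlog0, sub_mul, div_mul_cancel₀ _ hlog0.ne']
      exact k1'
    have e3 : |(rplan f q.1 q.2 : ℝ) / Real.log n - 1 / 2 * DD h| ≤ ε := by
      rw [abs_le]
      constructor
      · nlinarith
      · nlinarith
    linarith
  have hfin : ∀ Y : Set (Perm (Fin (6 * n)) × Fin (6 * n)), Y.Finite := fun Y => Set.toFinite Y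
  have hcard := (Set.ncard_le_ncard hsub (hfin _)).trans (Set.ncard_union_le _ _)
  have h5 := H1 n (by omega) f hf
  have h6 := H2 n (by omega) f hf
  have h7 : ({q : Perm (Fin (6 * n)) × Fin (6 * n) | q.1 ∈ TS f (v n) ∧ rep f q.1 q.2 = q.2 ∧
      ε < |(rplan f q.1 q.2 : ℝ) / Real.log n - 1 / 2 * DD h|}.ncard : ℝ) ≤
      (n : ℝ) ^ (1 - η1) * (TS f (v n)).ncard + (n : ℝ) ^ (1 - η2) * (TS f (v n)).ncard := by
    refine le_trans ?_ (add_le_add h5 h6)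
    exact_mod_cast hcard
  refine h7.trans ?_
  rw [← add_mul]
  refine mul_le_mul_of_nonneg_right ?_ (Nat.cast_nonneg _)
  have h8 : (n : ℝ) ^ (1 - η1) ≤ (n : ℝ) ^ (1 - 2 * η) :=
    Real.rpow_le_rpow_of_exponent_le hn0 (by linarith)
  have h9 : (n : ℝ) ^ (1 - η2) ≤ (n : ℝ) ^ (1 - 2 * η) :=
    Real.rpow_le_rpow_of_exponent_le hn0 (by linarith)
  have h10 : (2 : ℝ) ≤ (n : ℝ) ^ η := by
    have h11 : (2 : ℝ) ^ (1 / η) ≤ n := hn4.trans (by exact_mod_cast (by omega : n4 ≤ n))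
    calc (2 : ℝ) = ((2 : ℝ) ^ (1 / η)) ^ η := by
          rw [← Real.rpow_mul (by norm_num), one_div, inv_mul_cancel₀ hη0.ne', Real.rpow_one]
      _ ≤ (n : ℝ) ^ η := Real.rpow_le_rpow (by positivity) h11 hη0.le
  have h12 : (n : ℝ) ^ (1 - η) = (n : ℝ) ^ η * (n : ℝ) ^ (1 - 2 * η) := by
    rw [← Real.rpow_add hn0']
    congr 1
    ring
  rw [h12]
  have h13 : 0 ≤ (n : ℝ) ^ (1 - 2 * η) := Real.rpow_nonneg hn0'.le _
  nlinarith

end QE39
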