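import Pool.Agent.H39.QE.Lay
import Pool.Agent.H39.UI.Iso

/-!
Module UP (P186, assembly). The upper half: balls of radius `(1/2 + ε) D log n` are not planar.

Let `D0 = DD h > 0`. Given `ε > 0`; take `e > 0` small (below), `r0 = ⌊(1/2 - e) D0 log n⌋₊`, `r1 = ⌊(1/2 + ε) D0 log n⌋₊`.
Exceptional sets of pairs `(α, x)`, each of size at most `n^(1-η) #TS`:
 X1 : `lt f α x r0 ≤ n^(1/2 - 2 e)`  (`StG`);
 X2 : for some `r` with `1 ≤ r ≤ r1`: `Plan (ball (r+1))` and `n^(1/2 + e) ≤ zt r` (`StU`, sum over `r ≤ B log n`);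
 X3 : for some `s` with `n^(1/4) ≤ s ≤ δ n` there is a connected planar region `F ∋ x` with `s` faces and at most `δ s` legs (`iso`, sum over
      `s ≥ n^(1/4)`: `Σ C n s^2 exp (-c s)` is smaller than every power of `n`).
(`v n / n → 6 dl h ∈ (0,1)`: choose `ω1 < 6 dl h < ω2`; see UN/FinA or UN/RhoA for `0 < 6 dl h < 1`.)
Claim: outside these sets `ball f α x (r1 + 1)` is not planar, if `e` is small and `n` is large. Suppose it is planar; then by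
`ball_mono` all balls of radius `1 ≤ r ≤ r1 + 1` are planar, so (not X2) `zt r < n^(1/2+e)` for all `1 ≤ r ≤ r1`. By `faces_le`
`#ball r ≤ (6 r1 + 9) n^(1/2+e) ≤ 3 δ n` for `1 ≤ r ≤ r1`. Let `s_r = #ball r / 3` (divisible by 3: `f`-closed). For
`r0 + 1 ≤ r ≤ r1`: `3 s_r ≥ 3 s_(r0+1) ≥ lt r0 > n^(1/2 - 2e)` (`lt_ball`, not X1), so `n^(1/4) ≤ s_r ≤ δ n` and (not X3, `F = ball r`,
`ball_cf`) `#legs > δ s_r`, so by `legs_grow` `s_(r+1) ≥ (1 + δ/3) s_r`, for `r0 + 1 ≤ r ≤ r1 - 1`. Hence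
`s_(r1) ≥ (1/3) n^(1/2 - 2 e) (1 + δ/3)^(r1 - r0 - 1)`, and `r1 - r0 - 1 ≥ ε D0 log n - 2`; so
`s_(r1) ≥ c n^(1/2 - 2 e + ε D0 log (1 + δ/3))`, and if `e` is so small that `4 e < ε D0 log (1 + δ/3)` this contradicts
`s_(r1) ≤ (2 r1 + 3) n^(1/2 + e)` for large `n` (`r1 = O(log n)`). (`δ` of `iso` depends only on `ω1, ω2`, so it is chosen first.)
-/

set_option autoImplicit false

namespace QE39

open Equiv HG39 QD39 UI39 Filter Topology

private theorem up_three {D : Type} [Fintype D] [DecidableEq D] {f : Perm D} (hf : TF f)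
    (F : Finset D) (hF : ∀ d ∈ F, f d ∈ F) : ∃ s, F.card = 3 * s := by
  classical
  obtain ⟨g, hg⟩ : ∃ g : {d // d ∈ F} → {d // d ∈ F}, ∀ d, ((g d : {d // d ∈ F}) : D) = f d :=
    ⟨fun d => ⟨f d, hF d d.2⟩, fun d => rfl⟩
  have h3 : (show Function.End {d // d ∈ F} from g) ^ 3 ^ 1 = 1 := by
    funext d
    apply Subtype.ext
    change ((g (g (g d)) : {d // d ∈ F}) : D) = d
    rw [hg, hg, hg, hf.three]
  have : Fact (Nat.Prime 3) := ⟨Nat.prime_three⟩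
  have h4 := Equiv.Perm.card_fixedPoints_modEq (p := 3) (n := 1) (f := (show Function.End {d // d ∈ F} from g)) h3
  have h5 : Fintype.card (Function.fixedPoints g) = 0 := by
    rw [Fintype.card_eq_zero_iff]
    refine ⟨fun d => ?_⟩
    have h6 : g d.1 = d.1 := d.2
    have h7 := hg d.1
    rw [h6] at h7
    exact hf.nf _ h7.symm
  have h6 : Fintype.card {d // d ∈ F} = F.card := Fintype.card_coe F
  have h7 : Fintype.card {d // d ∈ F} ≡ Fintype.card (Function.fixedPoints g) [MOD 3] := h4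
  rw [h5, h6] at h7
  have h8 : 3 ∣ F.card := (Nat.modEq_zero_iff_dvd).1 h7
  obtain ⟨s, hs⟩ := h8
  exact ⟨s, hs⟩

private theorem up_core {D : Type} [Fintype D] [DecidableEq D] {f α : Perm D} (hf : TF f)
    (h : PT f α []) (x : D) (r0 r1 : ℕ) (h01 : r0 + 1 ≤ r1) (Z M S δ : ℝ) (hδ : 0 < δ)
    (ha : Plan f α (ball f α x (r1 + 1)))
    (hb : ∀ r, 1 ≤ r → r ≤ r1 → Plan f α (ball f α x (r + 1)) → (zt f α x r : ℝ) ≤ Z)
    (hc : M < lt f α x r0)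
    (hd : ∀ (s : ℕ) (F : Finset D), x ∈ F → (∀ d ∈ F, f d ∈ F) → F.card = 3 * s → Cf f α F →
      Plan f α F → ((legs α F).card : ℝ) ≤ δ * s → M ≤ 3 * s → (s : ℝ) ≤ S → False)
    (he : (6 * r1 + 9) * Z ≤ 3 * S) :
    M * (1 + δ / 3) ^ (r1 - r0 - 1) < (6 * r1 + 9) * Z := by
  have hpl : ∀ r, 1 ≤ r → r ≤ r1 + 1 → Plan f α (ball f α x r) := fun r hr hr1 =>
    ball_mono hf h x hr hr1 ha
  have hz : ∀ r, 1 ≤ r → r ≤ r1 → (zt f α x r : ℝ) ≤ Z := fun r hr hr1 =>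
    hb r hr hr1 (hpl (r + 1) (by omega) (by omega))
  have hZ : 0 ≤ Z := (Nat.cast_nonneg _).trans (hz r1 (by omega) le_rfl)
  have hup : ∀ r, 1 ≤ r → r ≤ r1 → ((ball f α x r).card : ℝ) ≤ (6 * r1 + 9) * Z := by
    intro r hr hr1
    have h1 := faces_le hf h x r (hpl r hr (by omega))
    have h2 : ((ball f α x r).card : ℝ) ≤ 6 * (∑ i ∈ Finset.Icc 1 r, (zt f α x i : ℝ)) +
        9 * zt f α x r := by exact_mod_cast h1
    have h3 : ∑ i ∈ Finset.Icc 1 r, (zt f α x i : ℝ) ≤ r * Z := by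
      have h4 : ∑ i ∈ Finset.Icc 1 r, (zt f α x i : ℝ) ≤ ∑ _i ∈ Finset.Icc 1 r, Z := by
        refine Finset.sum_le_sum fun i hi => ?_
        rw [Finset.mem_Icc] at hi
        exact hz i hi.1 (by omega)
      refine h4.trans (le_of_eq ?_)
      rw [Finset.sum_const, Nat.card_Icc, nsmul_eq_mul]
      congr 1
    have h4 : (r : ℝ) * Z ≤ r1 * Z := mul_le_mul_of_nonneg_right (by exact_mod_cast hr1) hZ
    have h5 := hz r hr hr1
    linarith
  have hlow : ∀ r, r0 + 1 ≤ r → M < ((ball f α x r).card : ℝ) := by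
    intro r hr
    have h1 := lt_ball f α x r0
    have h2 := Finset.card_le_card (ball_ss f α x hr)
    have h3 : (lt f α x r0 : ℝ) ≤ (ball f α x r).card := by exact_mod_cast h1.trans h2
    linarith
  have hgr : ∀ r, r0 + 1 ≤ r → r ≤ r1 →
      (1 + δ / 3) * ((ball f α x r).card : ℝ) ≤ (ball f α x (r + 1)).card := by
    intro r hr hr1
    obtain ⟨s, hs⟩ := up_three hf (ball f α x r) (ball_f hf α x r)
    have h1 : δ * s < ((legs α (ball f α x r)).card : ℝ) := by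
      by_contra hn
      push Not at hn
      refine hd s (ball f α x r) (ball_x f α x (by omega)) (ball_f hf α x r) hs
        (ball_cf hf h x r) (hpl r (by omega) (by omega)) hn ?_ ?_
      · have h2 := hlow r hr
        rw [hs] at h2
        push_cast at h2
        exact h2.le
      · have h2 := hup r (by omega) hr1
        rw [hs] at h2
        push_cast at h2
        linarith
    have h2 := legs_grow hf h x r
    have h3 : ((ball f α x r).card : ℝ) + (legs α (ball f α x r)).card ≤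
        (ball f α x (r + 1)).card := by exact_mod_cast h2
    have h4 : ((ball f α x r).card : ℝ) = 3 * s := by
      rw [hs]
      push_cast
      ring
    have h5 : δ / 3 * ((ball f α x r).card : ℝ) = δ * s := by
      rw [h4]
      ring
    linarith
  have hind : ∀ k, r0 + 1 + k ≤ r1 →
      M * (1 + δ / 3) ^ k < ((ball f α x (r0 + 1 + k)).card : ℝ) := by
    intro k
    induction k with
    | zero =>
      intro _
      rw [pow_zero, mul_one]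
      exact hlow _ le_rfl
    | succ k ih =>
      intro hk
      have h1 := ih (by omega)
      have h2 := hgr (r0 + 1 + k) (by omega) (by omega)
      have h3 : (0 : ℝ) < 1 + δ / 3 := by positivity
      calc M * (1 + δ / 3) ^ (k + 1) = (1 + δ / 3) * (M * (1 + δ / 3) ^ k) := by ring
        _ < (1 + δ / 3) * ((ball f α x (r0 + 1 + k)).card : ℝ) := mul_lt_mul_of_pos_left h1 h3
        _ ≤ _ := h2
  have h1 := hind (r1 - r0 - 1) (by omega)
  have h2 : r0 + 1 + (r1 - r0 - 1) = r1 := by omega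
  rw [h2] at h1
  exact h1.trans_le (hup r1 (by omega) le_rfl)

private theorem up_ev (K1 K2 a b : ℝ) (hab : a < b) :
    ∀ᶠ n : ℕ in atTop, (K1 * Real.log n + K2) * (n : ℝ) ^ a ≤ (n : ℝ) ^ b := by
  have h1 : (fun x : ℝ => K1 * Real.log x + K2) =o[atTop] fun x : ℝ => x ^ (b - a) := by
    refine ((isLittleO_log_rpow_atTop (by linarith)).const_mul_left K1).add ?_
    refine (Asymptotics.isLittleO_const_left.2 (Or.inr ?_))
    exact tendsto_norm_atTop_atTop.comp (tendsto_rpow_atTop (by linarith))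
  have h2 := h1.bound one_pos
  have h3 := (tendsto_natCast_atTop_atTop (R := ℝ)).eventually h2
  filter_upwards [h3, eventually_ge_atTop 1] with n hn hn1
  have h4 : (0 : ℝ) < n := by exact_mod_cast hn1
  rw [one_mul, Real.norm_eq_abs, Real.norm_eq_abs, abs_of_nonneg (Real.rpow_nonneg h4.le _)] at hn
  have h5 := (le_abs_self _).trans hn
  have h6 : (n : ℝ) ^ b = (n : ℝ) ^ (b - a) * (n : ℝ) ^ a := by
    rw [← Real.rpow_add h4]
    congr 1
    ring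
  rw [h6]
  exact mul_le_mul_of_nonneg_right h5 (Real.rpow_nonneg h4.le _)

private theorem up_ev2 (K c η : ℝ) (hc : 0 < c) (hη : η ≤ 1) :
    ∀ᶠ n : ℕ in atTop, K * (n : ℝ) ^ 4 * Real.exp (-c * (n : ℝ) ^ (1 / 4 : ℝ)) ≤
      (n : ℝ) ^ (1 - η) := by
  have h1 := (tendsto_rpow_mul_exp_neg_mul_atTop_nhds_zero 16 c hc).const_mul K
  rw [mul_zero] at h1
  have h2 : Tendsto (fun n : ℕ => (n : ℝ) ^ (1 / 4 : ℝ)) atTop atTop :=
    (tendsto_rpow_atTop (by norm_num)).comp tendsto_natCast_atTop_atTop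
  have h3 := (h1.comp h2).eventually (gt_mem_nhds (zero_lt_one' ℝ))
  filter_upwards [h3, eventually_ge_atTop 1] with n hn hn1
  have h4 : (0 : ℝ) < n := by exact_mod_cast hn1
  simp only [Function.comp_apply] at hn
  have h5 : ((n : ℝ) ^ (1 / 4 : ℝ)) ^ (16 : ℝ) = (n : ℝ) ^ 4 := by
    rw [← Real.rpow_mul h4.le, ← Real.rpow_natCast]
    norm_num
  rw [h5] at hn
  have h6 : (1 : ℝ) ≤ (n : ℝ) ^ (1 - η) :=
    Real.one_le_rpow (by exact_mod_cast hn1) (by linarith)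
  refine le_trans (le_of_eq ?_) (hn.le.trans h6)
  ring

private theorem up_ana (D0 ε δ : ℝ) (hD : 0 < D0) (hε : 0 < ε) (hδ : 0 < δ) :
    ∃ e : ℝ, 0 < e ∧ e < 1 / 8 ∧ ∀ᶠ n : ℕ in atTop,
      ⌊(1 / 2 - e) * D0 * Real.log n⌋₊ + 1 ≤ ⌊(1 / 2 + ε) * D0 * Real.log n⌋₊ ∧
      (6 * (⌊(1 / 2 + ε) * D0 * Real.log n⌋₊ : ℝ) + 9) * (n : ℝ) ^ (1 / 2 + e) ≤ 3 * (δ * n) ∧
      3 * (n : ℝ) ^ (1 / 4 : ℝ) ≤ (n : ℝ) ^ (1 / 2 - 2 * e) ∧
      (6 * (⌊(1 / 2 + ε) * D0 * Real.log n⌋₊ : ℝ) + 9) * (n : ℝ) ^ (1 / 2 + e) ≤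
        (n : ℝ) ^ (1 / 2 - 2 * e) * (1 + δ / 3) ^
          (⌊(1 / 2 + ε) * D0 * Real.log n⌋₊ - ⌊(1 / 2 - e) * D0 * Real.log n⌋₊ - 1) := by
  obtain ⟨l, hl⟩ : ∃ l, l = Real.log (1 + δ / 3) := ⟨_, rfl⟩
  have hl0 : 0 < l := by
    rw [hl]
    exact Real.log_pos (by linarith)
  have hy : 0 < ε * D0 * l := by positivity
  obtain ⟨e, he0, he1, he2⟩ : ∃ e : ℝ, 0 < e ∧ e < 1 / 8 ∧ 4 * e ≤ ε * D0 * l := by
    refine ⟨min (1 / 16) (ε * D0 * l / 4), by positivity, ?_, ?_⟩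
    · have := min_le_left (1 / 16 : ℝ) (ε * D0 * l / 4)
      linarith
    · have := min_le_right (1 / 16 : ℝ) (ε * D0 * l / 4)
      linarith
  refine ⟨e, he0, he1, ?_⟩
  have hlog : Tendsto (fun n : ℕ => Real.log n) atTop atTop :=
    Real.tendsto_log_atTop.comp tendsto_natCast_atTop_atTop
  have hex : 1 / 2 + e < 1 / 2 - 2 * e + (ε + e) * D0 * l := by
    have : 0 < e * D0 * l := by positivity
    nlinarith
  filter_upwards [up_ev (6 * ((1 / 2 + ε) * D0) / (3 * δ)) (9 / (3 * δ)) (1 / 2 + e) 1 (by linarith),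
    up_ev 0 3 (1 / 4) (1 / 2 - 2 * e) (by linarith),
    up_ev (6 * ((1 / 2 + ε) * D0) * Real.exp (2 * l)) (9 * Real.exp (2 * l)) (1 / 2 + e)
      (1 / 2 - 2 * e + (ε + e) * D0 * l) hex,
    hlog.eventually_ge_atTop (2 / ((ε + e) * D0)), hlog.eventually_ge_atTop 0,
    eventually_ge_atTop 1] with n h1 h2 h3 h4 h5 h6
  have hn : (0 : ℝ) < n := by exact_mod_cast h6
  obtain ⟨L, hL⟩ : ∃ L, L = Real.log n := ⟨_, rfl⟩
  rw [← hL] at h1 h2 h3 h4 h5 ⊢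
  have he3 : (0 : ℝ) < (ε + e) * D0 := by positivity
  rw [div_le_iff₀ he3] at h4
  have hfl1 : (⌊(1 / 2 + ε) * D0 * L⌋₊ : ℝ) ≤ (1 / 2 + ε) * D0 * L :=
    Nat.floor_le (by positivity)
  have hfl2 : (1 / 2 + ε) * D0 * L < (⌊(1 / 2 + ε) * D0 * L⌋₊ : ℝ) + 1 := Nat.lt_floor_add_one _
  have hfl3 : (⌊(1 / 2 - e) * D0 * L⌋₊ : ℝ) ≤ (1 / 2 - e) * D0 * L := by
    apply Nat.floor_le
    have : 0 < 1 / 2 - e := by linarith
    positivity
  obtain ⟨a, ha⟩ : ∃ a, a = ⌊(1 / 2 - e) * D0 * L⌋₊ := ⟨_, rfl⟩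
  obtain ⟨b, hb⟩ : ∃ b, b = ⌊(1 / 2 + ε) * D0 * L⌋₊ := ⟨_, rfl⟩
  rw [← ha] at hfl3 ⊢
  rw [← hb] at hfl1 hfl2 ⊢
  have hab : (a : ℝ) + 1 < b + 1 - 0 := by
    nlinarith
  have hab2 : a + 1 ≤ b := by
    have h7 : (a : ℝ) + 1 < b + 1 := by linarith
    have h8 : a + 1 < b + 1 := by exact_mod_cast h7
    omega
  have hp0 : 0 ≤ (n : ℝ) ^ (1 / 2 + e) := Real.rpow_nonneg hn.le _
  have hb9 : (6 * (b : ℝ) + 9) * (n : ℝ) ^ (1 / 2 + e) ≤
      (6 * ((1 / 2 + ε) * D0) * L + 9) * (n : ℝ) ^ (1 / 2 + e) := by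
    refine mul_le_mul_of_nonneg_right ?_ hp0
    linarith
  refine ⟨hab2, ?_, ?_, ?_⟩
  · refine hb9.trans ?_
    rw [Real.rpow_one] at h1
    have h7 : (6 * ((1 / 2 + ε) * D0) * L + 9) * (n : ℝ) ^ (1 / 2 + e) =
        3 * δ * ((6 * ((1 / 2 + ε) * D0) / (3 * δ) * L + 9 / (3 * δ)) * (n : ℝ) ^ (1 / 2 + e)) := by
      have : (3 * δ) ≠ 0 := by positivity
      field_simp
    rw [h7]
    have h8 := mul_le_mul_of_nonneg_left h1 (by positivity : (0 : ℝ) ≤ 3 * δ)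
    linarith
  · rw [zero_mul, zero_add] at h2
    exact h2
  · refine hb9.trans ?_
    have h7 : (1 + δ / 3) ^ (b - a - 1) = Real.exp (((b : ℝ) - a - 1) * l) := by
      have h8 : (b : ℝ) - a - 1 = ((b - a - 1 : ℕ) : ℝ) := by
        rw [Nat.cast_sub (by omega), Nat.cast_sub (by omega)]
        push_cast
        ring
      rw [h8, mul_comm, Real.exp_mul, hl, Real.exp_log (by positivity), Real.rpow_natCast]
    rw [h7]
    have h8 : Real.exp (((ε + e) * D0 * L - 2) * l) ≤ Real.exp (((b : ℝ) - a - 1) * l) := by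
      apply Real.exp_le_exp.2
      refine mul_le_mul_of_nonneg_right ?_ hl0.le
      nlinarith
    have h9 : (n : ℝ) ^ (1 / 2 - 2 * e + (ε + e) * D0 * l) = (n : ℝ) ^ (1 / 2 - 2 * e) *
        (Real.exp (((ε + e) * D0 * L - 2) * l) * Real.exp (2 * l)) := by
      rw [Real.rpow_add hn]
      congr 1
      rw [← Real.exp_add, Real.rpow_def_of_pos hn, ← hL]
      congr 1
      ring
    rw [h9] at h3
    have h10 : (6 * ((1 / 2 + ε) * D0) * L + 9) * (n : ℝ) ^ (1 / 2 + e) ≤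
        (n : ℝ) ^ (1 / 2 - 2 * e) * Real.exp (((ε + e) * D0 * L - 2) * l) := by
      have h11 := Real.exp_pos (2 * l)
      refine le_of_mul_le_mul_right ?_ h11
      refine le_trans (le_of_eq ?_) (h3.trans (le_of_eq ?_))
      · ring
      · ring
    exact h10.trans (mul_le_mul_of_nonneg_left h8 (Real.rpow_nonneg hn.le _))

private theorem up_card {A : Type} [Finite A] (X Y : Set A) (I J : Finset ℕ) (P Q : ℕ → Set A)
    (hX : X ⊆ {q | q ∈ Y ∨ (∃ r ∈ I, q ∈ P r) ∨ ∃ s ∈ J, q ∈ Q s}) (a b c : ℝ)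
    (ha : (Y.ncard : ℝ) ≤ a) (hb : ∀ r ∈ I, ((P r).ncard : ℝ) ≤ b)
    (hc : ∀ s ∈ J, ((Q s).ncard : ℝ) ≤ c) :
    (X.ncard : ℝ) ≤ a + I.card * b + J.card * c := by
  classical
  have h1 : X ⊆ Y ∪ ((⋃ r ∈ I, P r) ∪ ⋃ s ∈ J, Q s) := by
    intro q hq
    rcases hX hq with h | ⟨r, hr, h⟩ | ⟨s, hs, h⟩
    · exact Or.inl h
    · refine Or.inr (Or.inl ?_)
      simp only [Set.mem_iUnion]
      exact ⟨r, hr, h⟩
    · refine Or.inr (Or.inr ?_)
      simp only [Set.mem_iUnion]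
      exact ⟨s, hs, h⟩
  have h2 := Set.ncard_le_ncard h1 (Set.toFinite _)
  have h3 := Set.ncard_union_le Y ((⋃ r ∈ I, P r) ∪ ⋃ s ∈ J, Q s)
  have h4 := Set.ncard_union_le (⋃ r ∈ I, P r) (⋃ s ∈ J, Q s)
  have h5 : (⋃ r ∈ I, P r).ncard ≤ ∑ r ∈ I, (P r).ncard := I.set_ncard_biUnion_le P
  have h6 : (⋃ s ∈ J, Q s).ncard ≤ ∑ s ∈ J, (Q s).ncard := J.set_ncard_biUnion_le Q
  have h7 : ∑ r ∈ I, ((P r).ncard : ℝ) ≤ I.card * b := by
    rw [← nsmul_eq_mul]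
    exact Finset.sum_le_card_nsmul _ _ _ hb
  have h8 : ∑ s ∈ J, ((Q s).ncard : ℝ) ≤ J.card * c := by
    rw [← nsmul_eq_mul]
    exact Finset.sum_le_card_nsmul _ _ _ hc
  have h9 : (X.ncard : ℝ) ≤ (Y.ncard : ℝ) + (∑ r ∈ I, ((P r).ncard : ℝ) +
      ∑ s ∈ J, ((Q s).ncard : ℝ)) := by
    have : X.ncard ≤ Y.ncard + (∑ r ∈ I, (P r).ncard + ∑ s ∈ J, (Q s).ncard) := by omega
    exact_mod_cast this
  linarith

theorem up (hG : StG) (hU : StU) (h : ℝ) (h0 : 0 < h) (h1 : h < 1 / 4) (v : ℕ → ℕ)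
    (hv : Tendsto (fun n => (v n : ℝ) / n) atTop (𝓝 (6 * UN39.dl h)))
    (hp : ∀ᶠ n in atTop, v n % 2 = n % 2) (ε : ℝ) (hε : 0 < ε) :
    ∃ η : ℝ, 0 < η ∧ ∃ n0 : ℕ, ∀ n, n0 ≤ n → ∀ f : Perm (Fin (6 * n)), TF f →
    (({q : Perm (Fin (6 * n)) × Fin (6 * n) | q.1 ∈ TS f (v n) ∧ rep f q.1 q.2 = q.2 ∧
      ∃ r : ℕ, (1 / 2 + ε) * DD h * Real.log n < r ∧ Plan f q.1 (ball f q.1 q.2 r)}.ncard : ℕ) : ℝ) ≤
      (n : ℝ) ^ (1 - η) * (TS f (v n)).ncard := by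
  classical
  obtain ⟨mh0, mh1, _⟩ := mh_prop h h0 h1
  have hD : 0 < DD h := by
    unfold DD
    apply one_div_pos.2
    have := Real.log_neg mh0 mh1
    linarith
  obtain ⟨hd0, hd1⟩ := UN39.dl_range h0 h1
  obtain ⟨ω1, hω1, hω1'⟩ : ∃ ω1 : ℝ, 0 < ω1 ∧ ω1 < 6 * UN39.dl h :=
    ⟨3 * UN39.dl h, by linarith, by linarith⟩
  obtain ⟨ω2, hω2, hω2'⟩ : ∃ ω2 : ℝ, ω2 < 1 ∧ 6 * UN39.dl h < ω2 :=
    ⟨(1 + 6 * UN39.dl h) / 2, by linarith, by linarith⟩
  obtain ⟨δ, c, C, nI, hδ, hc, hC, HI⟩ := iso hω1 hω2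
  obtain ⟨e, he0, he1, hE⟩ := up_ana (DD h) ε δ hD hε hδ
  obtain ⟨η1, hη1, nG, HG⟩ := hG h h0 h1 v hv hp e he0 (by linarith)
  have hB : 0 < (1 / 2 + ε) * DD h := by positivity
  obtain ⟨η2, hη2, nU, HU⟩ := hU ω1 ω2 ((1 / 2 + ε) * DD h) e hω1 hω2 hB he0
  obtain ⟨η, hη, hη3, hη4, hη5⟩ : ∃ η : ℝ, 0 < η ∧ η < η1 ∧ η < η2 ∧ η ≤ 1 := by
    refine ⟨min 1 (min η1 η2 / 2), by positivity, ?_, ?_, min_le_left _ _⟩
    · have h2 := min_le_right 1 (min η1 η2 / 2)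
      have h3 := min_le_left η1 η2
      linarith
    · have h2 := min_le_right 1 (min η1 η2 / 2)
      have h3 := min_le_right η1 η2
      linarith
  refine ⟨η, hη, ?_⟩
  have hvl : ∀ᶠ n in atTop, ω1 < (v n : ℝ) / n := hv.eventually (lt_mem_nhds hω1')
  have hvu : ∀ᶠ n in atTop, (v n : ℝ) / n < ω2 := hv.eventually (gt_mem_nhds hω2')
  have hev : ∀ᶠ n : ℕ in atTop, ∀ f : Perm (Fin (6 * n)), TF f →
      (({q : Perm (Fin (6 * n)) × Fin (6 * n) | q.1 ∈ TS f (v n) ∧ rep f q.1 q.2 = q.2 ∧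
        ∃ r : ℕ, (1 / 2 + ε) * DD h * Real.log n < r ∧
          Plan f q.1 (ball f q.1 q.2 r)}.ncard : ℕ) : ℝ) ≤
        (n : ℝ) ^ (1 - η) * (TS f (v n)).ncard := by
    filter_upwards [hE, hvl, hvu, hp, eventually_ge_atTop nI, eventually_ge_atTop nG,
      eventually_ge_atTop nU, eventually_ge_atTop 1,
      up_ev 0 3 (1 - η1) (1 - η) (by linarith),
      up_ev (3 * ((1 / 2 + ε) * DD h)) 0 (1 - η2) (1 - η) (by linarith),
      up_ev2 (3 * (C * δ ^ 3)) c η hc hη5] with n hE1 hv1 hv2 hpar hnI hnG hnU hn1 hA1 hA2 hA3 f hf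
    have hn : (0 : ℝ) < n := by exact_mod_cast hn1
    have hv1' : ω1 * n ≤ v n := by
      rw [lt_div_iff₀ hn] at hv1
      exact hv1.le
    have hv2' : (v n : ℝ) ≤ ω2 * n := by
      rw [div_lt_iff₀ hn] at hv2
      exact hv2.le
    obtain ⟨hE1, hE2, hE3, hE4⟩ := hE1
    have hlog : 0 ≤ Real.log n := Real.log_nonneg (by exact_mod_cast hn1)
    obtain ⟨r0, hr0⟩ : ∃ r0, r0 = ⌊(1 / 2 - e) * DD h * Real.log n⌋₊ := ⟨_, rfl⟩
    obtain ⟨r1, hr1⟩ : ∃ r1, r1 = ⌊(1 / 2 + ε) * DD h * Real.log n⌋₊ := ⟨_, rfl⟩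
    rw [← hr0, ← hr1] at hE1 hE4
    rw [← hr1] at hE2
    have hr1' : (r1 : ℝ) ≤ (1 / 2 + ε) * DD h * Real.log n := by
      rw [hr1]
      exact Nat.floor_le (by positivity)
    obtain ⟨T, hT⟩ : ∃ T : ℝ, T = ((TS f (v n)).ncard : ℝ) := ⟨_, rfl⟩
    have hT0 : 0 ≤ T := by
      rw [hT]
      exact Nat.cast_nonneg _
    obtain ⟨J, hJ⟩ : ∃ J : Finset ℕ, J = (Finset.Icc 1 ⌊δ * (n : ℝ)⌋₊).filter
        (fun s : ℕ => (n : ℝ) ^ (1 / 4 : ℝ) ≤ s) := ⟨_, rfl⟩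
    have hJc : (J.card : ℝ) ≤ δ * n := by
      have h2 : J.card ≤ ⌊δ * (n : ℝ)⌋₊ := by
        rw [hJ]
        refine (Finset.card_filter_le _ _).trans ?_
        rw [Nat.card_Icc]
        omega
      have h3 : (J.card : ℝ) ≤ (⌊δ * (n : ℝ)⌋₊ : ℝ) := by exact_mod_cast h2
      exact h3.trans (Nat.floor_le (by positivity))
    have key := up_card
      {q : Perm (Fin (6 * n)) × Fin (6 * n) | q.1 ∈ TS f (v n) ∧ rep f q.1 q.2 = q.2 ∧
        ∃ r : ℕ, (1 / 2 + ε) * DD h * Real.log n < r ∧ Plan f q.1 (ball f q.1 q.2 r)}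
      {q : Perm (Fin (6 * n)) × Fin (6 * n) | q.1 ∈ TS f (v n) ∧ rep f q.1 q.2 = q.2 ∧
        (lt f q.1 q.2 r0 : ℝ) ≤ (n : ℝ) ^ (1 / 2 - 2 * e)}
      (Finset.Icc 1 r1) J
      (fun r => {q : Perm (Fin (6 * n)) × Fin (6 * n) | q.1 ∈ TS f (v n) ∧ rep f q.1 q.2 = q.2 ∧
        Plan f q.1 (ball f q.1 q.2 (r + 1)) ∧ (n : ℝ) ^ (1 / 2 + e) ≤ (zt f q.1 q.2 r : ℝ)})
      (fun s => {q : Perm (Fin (6 * n)) × Fin (6 * n) | q.1 ∈ TS f (v n) ∧
        ∃ F : Finset (Fin (6 * n)), q.2 ∈ F ∧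
        (∀ d ∈ F, f d ∈ F) ∧ F.card = 3 * s ∧ Cf f q.1 F ∧ Plan f q.1 F ∧
        ((legs q.1 F).card : ℝ) ≤ δ * s})
      ?_ ((n : ℝ) ^ (1 - η1) * T) ((n : ℝ) ^ (1 - η2) * T)
      (C * n * (δ * n) ^ 2 * Real.exp (-c * (n : ℝ) ^ (1 / 4 : ℝ)) * T) ?_ ?_ ?_
    · refine key.trans ?_
      rw [← hT, Nat.card_Icc]
      have hx1 : (n : ℝ) ^ (1 - η1) * T ≤ 1 / 3 * ((n : ℝ) ^ (1 - η) * T) := by
        have h2 := mul_le_mul_of_nonneg_right hA1 hT0
        linarith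
      have hx2 : ((r1 + 1 - 1 : ℕ) : ℝ) * ((n : ℝ) ^ (1 - η2) * T) ≤
          1 / 3 * ((n : ℝ) ^ (1 - η) * T) := by
        have h2 := mul_le_mul_of_nonneg_right hA2 hT0
        have h3 : ((r1 + 1 - 1 : ℕ) : ℝ) ≤ (1 / 2 + ε) * DD h * Real.log n := by
          rw [Nat.add_sub_cancel]
          exact hr1'
        have h4 : 0 ≤ (n : ℝ) ^ (1 - η2) * T := by positivity
        have h5 := mul_le_mul_of_nonneg_right h3 h4
        linarith
      have hx3 : (J.card : ℝ) * (C * n * (δ * n) ^ 2 * Real.exp (-c * (n : ℝ) ^ (1 / 4 : ℝ)) * T) ≤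
          1 / 3 * ((n : ℝ) ^ (1 - η) * T) := by
        have h2 := mul_le_mul_of_nonneg_right hA3 hT0
        have h4 : 0 ≤ C * n * (δ * n) ^ 2 * Real.exp (-c * (n : ℝ) ^ (1 / 4 : ℝ)) * T := by
          positivity
        have h5 := mul_le_mul_of_nonneg_right hJc h4
        linarith
      linarith
    · rintro ⟨α, x⟩ ⟨hα, hx, r, hr, hpl⟩
      simp only at hα hx hr hpl
      by_contra hno
      simp only [Set.mem_ofPred_eq, not_or, not_exists, not_and] at hno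
      obtain ⟨hno1, hno2, hno3⟩ := hno
      have hPT : PT f α [] := hα.1
      have hr' : r1 + 1 ≤ r := by
        rw [hr1]
        have h2 : ⌊(1 / 2 + ε) * DD h * Real.log n⌋₊ < r := by
          rw [Nat.floor_lt (by positivity)]
          exact hr
        omega
      have hpl1 : Plan f α (ball f α x (r1 + 1)) := ball_mono hf hPT x (by omega) hr' hpl
      have hcore := up_core hf hPT x r0 r1 hE1 ((n : ℝ) ^ (1 / 2 + e)) ((n : ℝ) ^ (1 / 2 - 2 * e))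
        (δ * n) δ hδ hpl1 ?_ ?_ ?_ hE2
      · exact absurd hcore (not_lt.2 hE4)
      · intro r hr hrr hpr
        have h2 := hno2 r (Finset.mem_Icc.2 ⟨hr, hrr⟩) hα hx hpr
        exact (not_le.1 h2).le
      · have h2 := hno1 hα hx
        exact not_le.1 h2
      · intro s F hxF hF hs hcf hplF hlegs hM hS
        have hsJ : s ∈ J := by
          rw [hJ, Finset.mem_filter, Finset.mem_Icc]
          have h2 : (n : ℝ) ^ (1 / 4 : ℝ) ≤ s := by linarith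
          have h3 : (1 : ℝ) ≤ (n : ℝ) ^ (1 / 4 : ℝ) :=
            Real.one_le_rpow (by exact_mod_cast hn1) (by norm_num)
          refine ⟨⟨?_, ?_⟩, h2⟩
          · exact_mod_cast h3.trans h2
          · exact Nat.le_floor hS
        exact hno3 s hsJ hα F hxF hF hs hcf hplF hlegs
    · have h2 := HG n hnG f hf r0 hr0
      rw [hT]
      exact h2
    · intro r hr
      rw [Finset.mem_Icc] at hr
      have h2 : (r : ℝ) ≤ (1 / 2 + ε) * DD h * Real.log n := by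
        have h3 : (r : ℝ) ≤ r1 := by exact_mod_cast hr.2
        linarith
      have h4 := HU n (v n) hnU hv1' hv2' hpar f hf r hr.1 h2
      rw [hT]
      exact h4
    · intro s hs
      rw [hJ, Finset.mem_filter, Finset.mem_Icc] at hs
      obtain ⟨⟨hs1, hs2⟩, hs3⟩ := hs
      have hs4 : (s : ℝ) ≤ δ * n := by
        have h2 : (s : ℝ) ≤ (⌊δ * (n : ℝ)⌋₊ : ℝ) := by exact_mod_cast hs2
        exact h2.trans (Nat.floor_le (by positivity))
      have h4 := HI n (v n) s hnI hv1' hv2' hpar hs1 hs4 f hf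
      rw [← hT] at h4
      refine h4.trans ?_
      have h5 : Real.exp (-c * s) ≤ Real.exp (-c * (n : ℝ) ^ (1 / 4 : ℝ)) := by
        apply Real.exp_le_exp.2
        nlinarith
      have h6 : (s : ℝ) ^ 2 ≤ (δ * n) ^ 2 := by
        have : (0 : ℝ) ≤ s := Nat.cast_nonneg _
        nlinarith
      have h7 : C * n * s ^ 2 * Real.exp (-c * s) ≤
          C * n * (δ * n) ^ 2 * Real.exp (-c * (n : ℝ) ^ (1 / 4 : ℝ)) := by
        refine mul_le_mul ?_ h5 (Real.exp_pos _).le (by positivity)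
        exact mul_le_mul_of_nonneg_left h6 (by positivity)
      exact mul_le_mul_of_nonneg_right h7 hT0
  obtain ⟨n0, hn0⟩ := eventually_atTop.1 hev
  exact ⟨n0, fun n hn => hn0 n hn⟩

end QE39
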